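import Pool.Agent.TH155.HR.Factor

set_option autoImplicit false

namespace TH155.HR

open Complex Set Metric Topology Module

theorem exists_param {n : ℕ} (hn : 2 ≤ n) (b : Fin n → ℂ) :
    ∃ L : (Fin (n - 1) → ℂ) →ₗ[ℂ] (Fin n → ℂ), Function.Injective L ∧ ∃ x, L x = b := by
  have hlt : Submodule.span ℂ {b} < ⊤ := by
    rw [lt_top_iff_ne_top]
    intro h
    have h1 : finrank ℂ (Submodule.span ℂ {b}) ≤ 1 :=
      (finrank_span_le_card ({b} : Set (Fin n → ℂ))).trans (by simp)
    rw [h, finrank_top, Module.finrank_fin_fun] at h1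
    omega
  obtain ⟨f, hf0, hf⟩ := Submodule.exists_le_ker_of_lt_top _ hlt
  have hfr : finrank ℂ (LinearMap.ker f) = n - 1 := by
    have h1 := LinearMap.finrank_range_add_finrank_ker f
    have h2 : LinearMap.range f = ⊤ := LinearMap.range_eq_top.2 (LinearMap.surjective hf0)
    rw [h2, finrank_top, Module.finrank_self, Module.finrank_fin_fun] at h1
    omega
  have e : (Fin (n - 1) → ℂ) ≃ₗ[ℂ] LinearMap.ker f :=
    LinearEquiv.ofFinrankEq _ _ (by rw [Module.finrank_fin_fun, hfr])
  have hb : b ∈ LinearMap.ker f := hf (Submodule.mem_span_singleton_self b)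
  refine ⟨(LinearMap.ker f).subtype ∘ₗ e.toLinearMap, ?_, e.symm ⟨b, hb⟩, by simp⟩
  intro x y hxy
  simpa using hxy

theorem pad {n N r : ℕ} (hr : r ≤ N) {p : (Fin n → ℂ) → ℝ} {G H : (Fin n → ℂ) → (Fin r → ℂ)}
    (hG : Differentiable ℂ G) (hH : Differentiable ℂ H)
    (hp : ∀ z, (p z : ℂ) = ∑ i, G z i * star (H z i)) :
    ∃ (ε : Fin (N * 2) → ℝ) (f : Fin (N * 2) → (Fin n → ℂ) → ℂ),
        (∀ j, ε j = 1 ∨ ε j = -1) ∧ (∀ j, Differentiable ℂ (f j)) ∧
        ∀ z, p z = ∑ j, ε j * Complex.normSq (f j z) := by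
  obtain ⟨d, rfl⟩ := Nat.exists_eq_add_of_le hr
  let G' : Fin (r + d) → (Fin n → ℂ) → ℂ := fun i z => Fin.append (G z) (fun _ : Fin d => 0) i
  let H' : Fin (r + d) → (Fin n → ℂ) → ℂ := fun i z => Fin.append (H z) (fun _ : Fin d => 0) i
  have hG' : ∀ i, Differentiable ℂ (G' i) := by
    intro i
    refine Fin.addCases (fun i => ?_) (fun i => ?_) i
    · simp only [G', Fin.append_left]; exact differentiable_pi.1 hG i
    · simp only [G', Fin.append_right]; exact differentiable_const _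
  have hH' : ∀ i, Differentiable ℂ (H' i) := by
    intro i
    refine Fin.addCases (fun i => ?_) (fun i => ?_) i
    · simp only [H', Fin.append_left]; exact differentiable_pi.1 hH i
    · simp only [H', Fin.append_right]; exact differentiable_const _
  have hp' : ∀ z, (p z : ℂ) = ∑ i, G' i z * star (H' i z) := by
    intro z
    rw [hp z, Fin.sum_univ_add]
    simp [G', H']
  let ε : Fin ((r + d) * 2) → ℝ := fun j => if (finProdFinEquiv.symm j).2 = 0 then 1 else -1
  let f : Fin ((r + d) * 2) → (Fin n → ℂ) → ℂ := fun j z =>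
    if (finProdFinEquiv.symm j).2 = 0 then
      (G' (finProdFinEquiv.symm j).1 z + H' (finProdFinEquiv.symm j).1 z) / 2
    else (G' (finProdFinEquiv.symm j).1 z - H' (finProdFinEquiv.symm j).1 z) / 2
  refine ⟨ε, f, ?_, ?_, ?_⟩
  · intro j
    simp only [ε]
    split_ifs <;> simp
  · intro j
    simp only [f]
    split_ifs
    · have h1 := Differentiable.fun_add (hG' (finProdFinEquiv.symm j).1)
        (hH' (finProdFinEquiv.symm j).1)
      simp only [div_eq_mul_inv]
      exact h1.mul_const _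
    · have h1 := Differentiable.fun_sub (hG' (finProdFinEquiv.symm j).1)
        (hH' (finProdFinEquiv.symm j).1)
      simp only [div_eq_mul_inv]
      exact h1.mul_const _
  · intro z
    have h1 : ∑ j, ε j * normSq (f j z) =
        ∑ x : Fin (r + d) × Fin 2, ε (finProdFinEquiv x) * normSq (f (finProdFinEquiv x) z) :=
      (Equiv.sum_comp finProdFinEquiv (fun j => ε j * normSq (f j z))).symm
    rw [h1, Fintype.sum_prod_type]
    simp only [Fin.sum_univ_two, ε, f, Equiv.symm_apply_apply]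
    have h2 : p z = (∑ i, G' i z * star (H' i z)).re := by
      rw [← hp' z]; simp
    rw [h2, Complex.re_sum]
    apply Finset.sum_congr rfl
    intro i _
    simp only [Complex.normSq_apply, Complex.mul_re, Complex.star_def, Complex.conj_re,
      Complex.conj_im]
    simp
    ring

theorem main (n : ℕ) (hn : 2 ≤ n) (k : ℕ) : ∃ c : ℕ, ∀ p : (Fin n → ℂ) → ℝ,
      AnalyticOnNhd ℝ p Set.univ →
      (∀ (a : Fin n → ℂ) (L : (Fin (n - 1) → ℂ) →ₗ[ℂ] (Fin n → ℂ)),
        Function.Injective L →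
        ∃ (ε : Fin k → ℝ) (g : Fin k → (Fin (n - 1) → ℂ) → ℂ),
          (∀ j, ε j = 1 ∨ ε j = -1) ∧ (∀ j, Differentiable ℂ (g j)) ∧
          ∀ x, p (a + L x) = ∑ j, ε j * Complex.normSq (g j x)) →
      ∃ (ε : Fin c → ℝ) (f : Fin c → (Fin n → ℂ) → ℂ),
        (∀ j, ε j = 1 ∨ ε j = -1) ∧ (∀ j, Differentiable ℂ (f j)) ∧
        ∀ z, p z = ∑ j, ε j * Complex.normSq (f j z) := by
  refine ⟨(k ^ n) ^ n * 2, fun p hp hH => ?_⟩
  have hline : ∀ a b : Fin n → ℂ, ∃ (e : Fin k → ℝ) (g : Fin k → ℂ → ℂ),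
      (∀ j, Differentiable ℂ (g j)) ∧ ∀ t : ℂ, p (a + t • b) = ∑ j, e j * normSq (g j t) := by
    intro a b
    obtain ⟨L, hL, x, hx⟩ := exists_param hn b
    obtain ⟨e, g, _, hg, hpg⟩ := hH a L hL
    refine ⟨e, fun j t => g j (t • x), fun j => (hg j).comp (by fun_prop), fun t => ?_⟩
    rw [← hpg (t • x), map_smul, hx]
  obtain ⟨ε, hε, P, hP, hPp⟩ := exists_complexification (hp 0 (mem_univ 0))
  have hρ : 0 < ε / 4 := by positivity
  have hsb : ∀ w : Fin n → ℂ, w ∈ ball (0 : Fin n → ℂ) (ε / 4) →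
      star w ∈ ball (0 : Fin n → ℂ) (ε / 4) := by
    intro w hw
    rw [mem_ball, dist_zero_right] at *
    rwa [norm_star]
  have hsub : ball (0 : Fin n → ℂ) (ε / 4) ⊆ ball 0 ε := ball_subset_ball (by linarith)
  have hP' : DifferentiableOn ℂ P (ball 0 (ε / 4) ×ˢ ball 0 (ε / 4)) :=
    hP.mono (prod_mono hsub (fun w hw => hsub (hsb w hw)))
  have hmin := minors_all (k := k) hρ P hP' (by
    intro l l' a α ha hα t s ht hs
    have hdec : ∀ (l : Fin n) (a : Fin n → ℂ) (t : ℂ), Function.update a l t =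
        Function.update a l 0 + (t / ((ε / 4 : ℝ) : ℂ)) • Pi.single l ((ε / 4 : ℝ) : ℂ) := by
      intro l a t
      have h4 : ((ε / 4 : ℝ) : ℂ) ≠ 0 := by exact_mod_cast hρ.ne'
      ext i
      by_cases h : i = l
      · subst h
        simp only [Function.update_self, Pi.add_apply, Pi.smul_apply, Pi.single_eq_same,
          smul_eq_mul, zero_add]
        field_simp
      · simp [Function.update_of_ne h, Pi.single_eq_of_ne h]
    have hn1 : ∀ (l : Fin n) (a : Fin n → ℂ), a ∈ ball (0 : Fin n → ℂ) (ε / 4) →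
        ‖Function.update a l 0‖ < ε / 2 := by
      intro l a ha
      rw [mem_ball, dist_zero_right] at ha
      rw [pi_norm_lt_iff (by positivity)]
      intro i
      by_cases h : i = l
      · subst h; simpa using hε
      · rw [Function.update_of_ne h]
        exact ((norm_le_pi_norm a i).trans_lt ha).trans (by linarith)
    have hn2 : ∀ l : Fin n, ‖(Pi.single l ((ε / 4 : ℝ) : ℂ) : Fin n → ℂ)‖ < ε / 2 := by
      intro l
      rw [pi_norm_lt_iff (by positivity)]
      intro i
      by_cases h : i = l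
      · subst h
        rw [Pi.single_eq_same, Complex.norm_real, Real.norm_of_nonneg hρ.le]
        linarith
      · rw [Pi.single_eq_of_ne h, norm_zero]; positivity
    have hn3 : ∀ t : ℂ, t ∈ ball (0 : ℂ) (ε / 4) → ‖t / ((ε / 4 : ℝ) : ℂ)‖ ≤ 1 := by
      intro t ht
      rw [mem_ball, dist_zero_right] at ht
      rw [norm_div, Complex.norm_real, Real.norm_of_nonneg hρ.le, div_le_one hρ]
      exact ht.le
    have key := line_minors hP hPp hline (fun i => t i / ((ε / 4 : ℝ) : ℂ))
      (fun i => s i / ((ε / 4 : ℝ) : ℂ)) (fun i => hn3 _ (ht i)) (fun i => hn3 _ (hs i))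
      (Function.update a l 0) (Pi.single l ((ε / 4 : ℝ) : ℂ)) (Function.update α l' 0)
      (Pi.single l' ((ε / 4 : ℝ) : ℂ)) (hn1 l a ha) (hn2 l) (hn1 l' α hα) (hn2 l')
    have e : (Matrix.of fun i j => P (Function.update a l (t i), Function.update α l' (s j))) =
      Matrix.of fun i j => P (Function.update a l 0 + (t i / ((ε / 4 : ℝ) : ℂ)) •
        Pi.single l ((ε / 4 : ℝ) : ℂ), Function.update α l' 0 + (s j / ((ε / 4 : ℝ) : ℂ)) •
        Pi.single l' ((ε / 4 : ℝ) : ℂ)) := by
      ext i j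
      simp only [Matrix.of_apply]
      rw [← hdec, ← hdec]
    rw [e]
    exact key)
  obtain ⟨r, hr, G, H, hG, hH', hGi, hHi, hfac⟩ := factor P hP' hmin
  obtain ⟨G', H'', hG', hH'', hrep⟩ := global_rep hp hρ hG hH' (fun z hz => by
    rw [← hPp z (hsub hz)]
    exact hfac z hz z hz) hGi hHi
  exact pad hr hG' hH'' hrep

end TH155.HR
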