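import Mathlib

set_option autoImplicit false

namespace TH155.HR

open Complex Set Metric Topology

/-- preimages of convex sets under complex affine parametrisations are convex -/
theorem convex_line {E : Type*} [NormedAddCommGroup E] [NormedSpace ℂ E] {U : Set E}
    (hUc : Convex ℝ U) (x v : E) : Convex ℝ ((fun τ : ℂ => x + τ • v) ⁻¹' U) := by
  intro s hs t ht a b ha hb hab
  simp only [mem_preimage] at *
  have : x + (a • s + b • t) • v = a • (x + s • v) + b • (x + t • v) := by
    rw [smul_add, smul_add, add_smul, smul_assoc, smul_assoc]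
    have : x = a • x + b • x := by rw [← add_smul, hab, one_smul]
    nth_rewrite 1 [this]
    abel
  rw [this]
  exact hUc hs ht ha hb hab

/-- identity theorem for Frechet holomorphic maps on convex open sets -/
theorem eqOn_zero_of_open {E V : Type*} [NormedAddCommGroup E] [NormedSpace ℂ E]
    [NormedAddCommGroup V] [NormedSpace ℂ V] [CompleteSpace V]
    {f : E → V} {U O : Set E} (hU : IsOpen U) (hUc : Convex ℝ U)
    (hf : DifferentiableOn ℂ f U) (hO : IsOpen O) (hOne : O.Nonempty) (hOU : O ⊆ U)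
    (h0 : ∀ z ∈ O, f z = 0) : ∀ z ∈ U, f z = 0 := by
  intro z hz
  obtain ⟨x, hx⟩ := hOne
  let g : ℂ → E := fun τ => x + τ • (z - x)
  have hg : Differentiable ℂ g := by fun_prop
  have hUτ : IsOpen (g ⁻¹' U) := hU.preimage hg.continuous
  have hOτ : IsOpen (g ⁻¹' O) := hO.preimage hg.continuous
  have hconv : Convex ℝ (g ⁻¹' U) := convex_line hUc x (z - x)
  have hd : DifferentiableOn ℂ (f ∘ g) (g ⁻¹' U) :=
    hf.comp hg.differentiableOn (fun τ hτ => hτ)
  have ha : AnalyticOnNhd ℂ (f ∘ g) (g ⁻¹' U) := hd.analyticOnNhd hUτ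
  have h00 : (0 : ℂ) ∈ g ⁻¹' O := by simp [g, hx]
  have h01 : (1 : ℂ) ∈ g ⁻¹' U := by simp [g, hz]
  have hev : (f ∘ g) =ᶠ[𝓝 0] 0 := by
    filter_upwards [hOτ.mem_nhds h00] with τ hτ
    exact h0 _ hτ
  have := ha.eqOn_zero_of_preconnected_of_eventuallyEq_zero hconv.isPreconnected
    (hOU (by simpa [g] using hx) : (0 : ℂ) ∈ g ⁻¹' U) hev h01
  simpa [g] using this

theorem eqOn_of_open {E V : Type*} [NormedAddCommGroup E] [NormedSpace ℂ E]
    [NormedAddCommGroup V] [NormedSpace ℂ V] [CompleteSpace V]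
    {f g : E → V} {U O : Set E} (hU : IsOpen U) (hUc : Convex ℝ U)
    (hf : DifferentiableOn ℂ f U) (hg : DifferentiableOn ℂ g U)
    (hO : IsOpen O) (hOne : O.Nonempty) (hOU : O ⊆ U)
    (h0 : ∀ z ∈ O, f z = g z) : ∀ z ∈ U, f z = g z := by
  intro z hz
  have := eqOn_zero_of_open hU hUc (hf.sub hg) hO hOne hOU
    (fun z hz => by simp [h0 z hz]) z hz
  simpa [sub_eq_zero] using this

/-- uniqueness from the totally real diagonal -/
theorem totally_real {E : Type*} [NormedAddCommGroup E] [NormedSpace ℂ E]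
    [StarAddMonoid E] [StarModule ℂ E] [ContinuousStar E]
    {O : Set E} (hO : IsOpen O) (hOc : Convex ℝ O) (G : E × E → ℂ)
    (hG : DifferentiableOn ℂ G (O ×ˢ (star ⁻¹' O)))
    (h0 : ∀ z ∈ O, G (z, star z) = 0) : ∀ z ∈ O, ∀ w ∈ O, G (z, star w) = 0 := by
  intro z hz w hw
  let v : E := (1 / 2 : ℂ) • (z + w)
  let u : E := (1 / (2 * I) : ℂ) • (z - w)
  have hz' : v + I • u = z := by
    simp only [v, u, smul_smul]
    have : I * (1 / (2 * I)) = (1 / 2 : ℂ) := by field_simp
    rw [this, ← smul_add]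
    rw [show z + w + (z - w) = (2 : ℂ) • z by rw [two_smul]; abel, smul_smul]
    norm_num
  have hw' : v - I • u = w := by
    simp only [v, u, smul_smul]
    have : I * (1 / (2 * I)) = (1 / 2 : ℂ) := by field_simp
    rw [this, ← smul_sub]
    rw [show z + w - (z - w) = (2 : ℂ) • w by rw [two_smul]; abel, smul_smul]
    norm_num
  let g : ℂ → E × E := fun τ => (v + τ • u, star v + τ • star u)
  have hg : Differentiable ℂ g := by
    apply Differentiable.prodMk <;> fun_prop
  have hst : ∀ τ : ℂ, star (star v + τ • star u) = v + (star τ) • u := by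
    intro τ; simp [star_add, star_smul]
  let S : Set ℂ := g ⁻¹' (O ×ˢ (star ⁻¹' O))
  have hSo : IsOpen S := (hO.prod (hO.preimage continuous_star)).preimage hg.continuous
  have hSc : Convex ℝ S := by
    intro s hs t ht a b ha hb hab
    simp only [S, g, mem_preimage, mem_prod, hst] at hs ht ⊢
    refine ⟨convex_line hOc v u hs.1 ht.1 ha hb hab, ?_⟩
    have := convex_line hOc v u hs.2 ht.2 ha hb hab
    simp only [mem_preimage] at this
    convert this using 3
    simp
  have hd : DifferentiableOn ℂ (G ∘ g) S := hG.comp hg.differentiableOn (fun τ hτ => hτ)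
  have ha : AnalyticOnNhd ℂ (G ∘ g) S := hd.analyticOnNhd hSo
  have hvO : v ∈ O := by
    have := hOc hz hw (a := 1 / 2) (b := 1 / 2) (by norm_num) (by norm_num) (by norm_num)
    convert this using 1
    simp only [v]
    rw [smul_add]
    have e : ∀ y : E, (1 / 2 : ℂ) • y = (1 / 2 : ℝ) • y := by
      intro y
      rw [← Complex.coe_smul]; norm_num
    rw [e, e]
  have h0S : (0 : ℂ) ∈ S := by
    simp [S, g, hvO]
  have hIS : I ∈ S := by
    simp only [S, g, mem_preimage, mem_prod, hst]
    refine ⟨by rw [hz']; exact hz, ?_⟩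
    have : v + star I • u = w := by rw [← hw']; simp [sub_eq_add_neg]
    rw [this]; exact hw
  have hfreq : ∃ᶠ τ in 𝓝[≠] (0 : ℂ), (G ∘ g) τ = 0 := by
    have hev : ∀ᶠ τ in 𝓝 (0 : ℂ), τ ∈ S := hSo.mem_nhds h0S
    have hc : Filter.Tendsto (fun t : ℝ => (t : ℂ)) (𝓝[≠] 0) (𝓝[≠] (0 : ℂ)) := by
      apply tendsto_nhdsWithin_of_tendsto_nhds_of_eventually_within
      · have := Complex.continuous_ofReal.tendsto (0 : ℝ)
        simp only [ofReal_zero] at this
        exact this.mono_left nhdsWithin_le_nhds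
      · filter_upwards [self_mem_nhdsWithin] with t ht
        simpa using ht
    apply hc.frequently
    apply Filter.Eventually.frequently
    have h2 : ∀ᶠ t : ℝ in 𝓝[≠] 0, ((t : ℝ) : ℂ) ∈ S :=
      (hc.mono_right nhdsWithin_le_nhds).eventually hev
    filter_upwards [h2] with t ht
    have h3 : star v + (t : ℂ) • star u = star (v + (t : ℂ) • u) := by
      rw [star_add, star_smul]; simp
    simp only [Function.comp, g, h3]
    apply h0
    exact ht.1
  have := ha.eqOn_zero_of_preconnected_of_frequently_eq_zero hSc.isPreconnected h0S hfreq hIS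
  have h4 : g I = (z, star w) := by
    simp only [g, hz', Prod.mk.injEq, true_and]
    rw [← hw', star_sub, star_smul]
    simp
  simpa [h4] using this

end TH155.HR
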