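import Mathlib

set_option autoImplicit false

namespace TH155.HR

open Complex Set Metric Topology ENNReal NNReal

/-- real basis of `Fin n → ℂ` -/
noncomputable def bas (n : ℕ) : Fin n ⊕ Fin n → (Fin n → ℂ)
  | Sum.inl j => Pi.single j 1
  | Sum.inr j => Pi.single j I

theorem norm_bas_le (n : ℕ) (i : Fin n ⊕ Fin n) : ‖bas n i‖ ≤ 1 := by
  rcases i with j | j
  · simp only [bas]
    rw [pi_norm_le_iff_of_nonneg zero_le_one]
    intro k
    by_cases h : k = j
    · subst h; simp
    · simp [Pi.single_eq_of_ne h]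
  · simp only [bas]
    rw [pi_norm_le_iff_of_nonneg zero_le_one]
    intro k
    by_cases h : k = j
    · subst h; simp
    · simp [Pi.single_eq_of_ne h]

/-- the complexified Taylor series -/
noncomputable def cser {n : ℕ} (S : FormalMultilinearSeries ℝ (Fin n → ℂ) ℝ) :
    FormalMultilinearSeries ℂ (Fin n ⊕ Fin n → ℂ) ℂ := fun m =>
  ∑ φ : Fin m → Fin n ⊕ Fin n, ((S m (fun i => bas n (φ i)) : ℝ) : ℂ) •
    (ContinuousMultilinearMap.mkPiAlgebra ℂ (Fin m) ℂ).compContinuousLinearMap
      (fun i => ContinuousLinearMap.proj (R := ℂ) (φ := fun _ : Fin n ⊕ Fin n => ℂ) (φ i))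

theorem cser_apply {n : ℕ} (S : FormalMultilinearSeries ℝ (Fin n → ℂ) ℝ) (m : ℕ)
    (ζ : Fin n ⊕ Fin n → ℂ) :
    cser S m (fun _ => ζ) =
      ∑ φ : Fin m → Fin n ⊕ Fin n, ((S m (fun i => bas n (φ i)) : ℝ) : ℂ) * ∏ i, ζ (φ i) := by
  simp [cser, ContinuousMultilinearMap.sum_apply]

theorem cser_real {n : ℕ} (S : FormalMultilinearSeries ℝ (Fin n → ℂ) ℝ) (m : ℕ)
    (x : Fin n ⊕ Fin n → ℝ) :
    cser S m (fun _ => fun i => (x i : ℂ)) =
      ((S m (fun _ => ∑ i, x i • bas n i) : ℝ) : ℂ) := by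
  rw [cser_apply, ContinuousMultilinearMap.map_sum, ofReal_sum]
  apply Finset.sum_congr rfl
  intro φ _
  rw [ContinuousMultilinearMap.map_smul_univ]
  push_cast
  rw [smul_eq_mul]
  push_cast
  ring

theorem norm_cser_le {n : ℕ} (S : FormalMultilinearSeries ℝ (Fin n → ℂ) ℝ) (m : ℕ) :
    ‖cser S m‖ ≤ (n + n : ℝ) ^ m * ‖S m‖ := by
  unfold cser
  refine (norm_sum_le _ _).trans ?_
  have : ∀ φ ∈ (Finset.univ : Finset (Fin m → Fin n ⊕ Fin n)),
      ‖((S m (fun i => bas n (φ i)) : ℝ) : ℂ) •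
    (ContinuousMultilinearMap.mkPiAlgebra ℂ (Fin m) ℂ).compContinuousLinearMap
      (fun i => ContinuousLinearMap.proj (R := ℂ) (φ := fun _ : Fin n ⊕ Fin n => ℂ) (φ i))‖
      ≤ ‖S m‖ := by
    intro φ _
    rw [norm_smul, norm_real]
    have h1 : ‖S m (fun i => bas n (φ i))‖ ≤ ‖S m‖ := by
      refine (ContinuousMultilinearMap.le_opNorm _ _).trans ?_
      have : ∏ i, ‖bas n (φ i)‖ ≤ 1 := Finset.prod_le_one (fun i _ => norm_nonneg _)
        (fun i _ => norm_bas_le n _)
      nlinarith [norm_nonneg (S m)]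
    have h2 : ‖(ContinuousMultilinearMap.mkPiAlgebra ℂ (Fin m) ℂ).compContinuousLinearMap
      (fun i => ContinuousLinearMap.proj (R := ℂ) (φ := fun _ : Fin n ⊕ Fin n => ℂ) (φ i))‖ ≤ 1 := by
      refine ContinuousMultilinearMap.opNorm_le_bound zero_le_one ?_
      intro v
      simp only [ContinuousMultilinearMap.compContinuousLinearMap_apply,
        ContinuousMultilinearMap.mkPiAlgebra_apply, ContinuousLinearMap.proj_apply, one_mul]
      rw [norm_prod]
      exact Finset.prod_le_prod (fun i _ => norm_nonneg _) (fun i _ => norm_le_pi_norm _ _)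
    calc _ ≤ ‖S m‖ * 1 := mul_le_mul h1 h2 (norm_nonneg _) (norm_nonneg _)
      _ = ‖S m‖ := mul_one _
  refine (Finset.sum_le_card_nsmul _ _ _ this).trans ?_
  simp

theorem cser_radius_pos {n : ℕ} (S : FormalMultilinearSeries ℝ (Fin n → ℂ) ℝ)
    (hS : 0 < S.radius) : 0 < (cser S).radius := by
  obtain ⟨r, hr0, hr⟩ := ENNReal.lt_iff_exists_nnreal_btwn.1 hS
  obtain ⟨C, hC, hb⟩ := S.norm_mul_pow_le_of_lt_radius hr
  have hr0' : 0 < r := by exact_mod_cast hr0
  let r' : ℝ≥0 := r / (n + n + 1)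
  have hr' : 0 < r' := by positivity
  refine lt_of_lt_of_le (show (0 : ℝ≥0∞) < (r' : ℝ≥0∞) by exact_mod_cast hr')
    ((cser S).le_radius_of_bound C (fun m => ?_))
  calc ‖cser S m‖ * (r' : ℝ) ^ m ≤ ((n + n : ℝ) ^ m * ‖S m‖) * (r' : ℝ) ^ m := by
        gcongr; exact norm_cser_le S m
    _ = ‖S m‖ * ((n + n : ℝ) * r') ^ m := by rw [mul_pow]; ring
    _ ≤ ‖S m‖ * (r : ℝ) ^ m := by
        gcongr
        simp only [r', NNReal.coe_div, NNReal.coe_add, NNReal.coe_natCast, NNReal.coe_one]
        rw [mul_div_assoc', div_le_iff₀ (by positivity)]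
        nlinarith [r.coe_nonneg, (Nat.cast_nonneg n : (0 : ℝ) ≤ n)]
    _ ≤ C := hb m

theorem sum_re_im {n : ℕ} (v : Fin n → ℂ) :
    ∑ i, (Sum.elim (fun j => (v j).re) (fun j => (v j).im) i : ℝ) • bas n i = v := by
  rw [Fintype.sum_sum_type]
  simp only [Sum.elim_inl, Sum.elim_inr, bas]
  ext k
  simp only [Pi.add_apply, Finset.sum_apply, Pi.smul_apply]
  rw [Finset.sum_eq_single k, Finset.sum_eq_single k]
  · simp [Complex.re_add_im]
  · intro j _ hj
    simp [Pi.single_eq_of_ne hj.symm]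
  · simp
  · intro j _ hj
    simp [Pi.single_eq_of_ne hj.symm]
  · simp

/-- local complexification of a real analytic function -/
theorem exists_complexification {n : ℕ} {p : (Fin n → ℂ) → ℝ} {q : Fin n → ℂ}
    (hp : AnalyticAt ℝ p q) :
    ∃ r > 0, ∃ P : (Fin n → ℂ) × (Fin n → ℂ) → ℂ,
      DifferentiableOn ℂ P (ball q r ×ˢ (star ⁻¹' ball q r)) ∧
      ∀ z ∈ ball q r, P (z, star z) = p z := by
  obtain ⟨S, R, hS⟩ := hp
  have hT0 : 0 < (cser S).radius := cser_radius_pos S (hS.r_pos.trans_le hS.r_le)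
  have hT := (cser S).hasFPowerSeriesOnBall hT0
  obtain ⟨r, hr0, hr⟩ := ENNReal.lt_iff_exists_nnreal_btwn.1 (lt_min hT0 hS.r_pos)
  have hr0' : 0 < r := by exact_mod_cast hr0
  let coord : (Fin n → ℂ) × (Fin n → ℂ) → (Fin n ⊕ Fin n → ℂ) := fun x =>
    Sum.elim (fun j => ((x.1 j - q j) + (x.2 j - star q j)) / 2)
      (fun j => ((x.1 j - q j) - (x.2 j - star q j)) / (2 * I))
  have hcoord : Differentiable ℂ coord := by
    rw [differentiable_pi]
    rintro (j | j)
    · simp only [coord, Sum.elim_inl]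
      fun_prop
    · simp only [coord, Sum.elim_inr]
      fun_prop
  refine ⟨r, by exact_mod_cast hr0, fun x => (cser S).sum (coord x), ?_, ?_⟩
  · have hd : DifferentiableOn ℂ (cser S).sum (Metric.eball 0 (cser S).radius) :=
      hT.analyticOnNhd.differentiableOn
    refine hd.comp hcoord.differentiableOn ?_
    rintro ⟨z, w⟩ ⟨hz, hw⟩
    simp only [mem_ball, mem_preimage] at hz hw
    have h1 : ∀ j, ‖z j - q j‖ ≤ ‖z - q‖ := fun j => norm_le_pi_norm (z - q) j
    have h2 : ∀ j, ‖w j - star q j‖ ≤ ‖star w - q‖ := fun j => by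
      have := norm_le_pi_norm (star w - q) j
      simp only [Pi.sub_apply, Pi.star_apply] at this
      rw [← norm_star, star_sub] at this
      simpa using this
    rw [dist_eq_norm] at hz hw
    have h3 : ‖coord (z, w)‖ < r := by
      rw [pi_norm_lt_iff (by exact_mod_cast hr0')]
      rintro (j | j)
      · simp only [coord, Sum.elim_inl]
        rw [norm_div]
        have := norm_add_le (z j - q j) (w j - star q j)
        have e : ‖(2 : ℂ)‖ = 2 := by simp
        rw [e, div_lt_iff₀ (by norm_num)]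
        linarith [h1 j, h2 j]
      · simp only [coord, Sum.elim_inr]
        rw [norm_div]
        have := norm_sub_le (z j - q j) (w j - star q j)
        have e : ‖(2 * I : ℂ)‖ = 2 := by simp
        rw [e, div_lt_iff₀ (by norm_num)]
        linarith [h1 j, h2 j]
    rw [Metric.mem_eball, edist_zero_right]
    refine lt_of_lt_of_le ?_ ((hr.trans_le (min_le_left _ _)).le)
    rw [← ofReal_norm_eq_enorm]
    rw [ENNReal.ofReal_lt_coe_iff (by positivity)]
    exact h3
  · intro z hz
    let v : Fin n → ℂ := z - q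
    let x : Fin n ⊕ Fin n → ℝ := Sum.elim (fun j => (v j).re) (fun j => (v j).im)
    have hc : coord (z, star z) = fun i => (x i : ℂ) := by
      ext i
      rcases i with j | j
      · simp only [coord, x, Sum.elim_inl, v, Pi.star_apply, Pi.sub_apply]
        rw [Complex.re_eq_add_conj]
        simp [Complex.star_def]
      · simp only [coord, x, Sum.elim_inr, v, Pi.star_apply, Pi.sub_apply]
        rw [Complex.im_eq_sub_conj]
        simp [Complex.star_def]
    have hnx : ‖fun i => (x i : ℂ)‖ < r := by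
      rw [pi_norm_lt_iff (by exact_mod_cast hr0')]
      have h1 : ∀ j, ‖v j‖ < r := fun j => by
        rw [mem_ball, dist_eq_norm] at hz
        exact (norm_le_pi_norm (z - q) j).trans_lt hz
      rintro (j | j)
      · simp only [x, Sum.elim_inl, norm_real]
        exact (Complex.abs_re_le_norm _).trans_lt (h1 j)
      · simp only [x, Sum.elim_inr, norm_real]
        exact (Complex.abs_im_le_norm _).trans_lt (h1 j)
    show (cser S).sum (coord (z, star z)) = p z
    rw [hc]
    have hmem : (fun i => (x i : ℂ)) ∈ Metric.eball (0 : Fin n ⊕ Fin n → ℂ) (cser S).radius := by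
      rw [Metric.mem_eball, edist_zero_right]
      refine lt_of_lt_of_le ?_ ((hr.trans_le (min_le_left _ _)).le)
      rw [← ofReal_norm_eq_enorm, ENNReal.ofReal_lt_coe_iff (by positivity)]
      exact hnx
    have hs1 := (cser S).hasSum hmem
    have hvmem : v ∈ Metric.eball (0 : Fin n → ℂ) R := by
      rw [Metric.mem_eball, edist_zero_right]
      refine lt_of_lt_of_le ?_ ((hr.trans_le (min_le_right _ _)).le)
      rw [← ofReal_norm_eq_enorm, ENNReal.ofReal_lt_coe_iff (by positivity)]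
      rw [mem_ball, dist_eq_norm] at hz
      exact hz
    have hs2 := hS.hasSum hvmem
    have hs3 : HasSum (fun m => ((S m (fun _ => v) : ℝ) : ℂ)) ((p (q + v) : ℝ) : ℂ) := by
      exact_mod_cast hs2
    have he : (fun m => cser S m (fun _ => fun i => (x i : ℂ))) =
        fun m => ((S m (fun _ => v) : ℝ) : ℂ) := by
      ext m
      rw [cser_real, sum_re_im]
    rw [he] at hs1
    have := hs1.unique hs3
    rw [this]
    simp [v]

end TH155.HR
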