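import Pool.Agent.TH155.HR.Basic

set_option autoImplicit false

namespace TH155.HR

open Complex Set Metric Topology

variable {E V : Type*} [NormedAddCommGroup E] [NormedSpace ℂ E] [ProperSpace E]
  [NormedAddCommGroup V] [NormedSpace ℂ V] [CompleteSpace V]

theorem balls_meet {R : ℝ} (hR : 0 < R) {q q' : E} (hq : q ∈ closedBall (0 : E) R)
    (hq' : q' ∈ closedBall (0 : E) R) {r r' : ℝ} (hr : 0 < r) (hr' : 0 < r') {z : E}
    (hz : z ∈ ball q r) (hz' : z ∈ ball q' r') :
    ((ball q r ∩ ball q' r') ∩ ball (0 : E) R).Nonempty := by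
  let s : ℝ := r / (r + r')
  have hs0 : 0 ≤ s := by positivity
  have hs1 : 0 ≤ 1 - s := by
    have : s ≤ 1 := by
      rw [div_le_one (by positivity)]; linarith
    linarith
  let y : E := (1 - s) • q + s • q'
  have hy : y ∈ closedBall (0 : E) R :=
    (convex_closedBall (0 : E) R) hq hq' hs1 hs0 (by ring)
  have hd : dist q q' < r + r' := by
    have := dist_triangle_left q q' z
    rw [mem_ball] at hz hz'
    linarith
  have hyq : y ∈ ball q r := by
    rw [mem_ball, dist_eq_norm]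
    have : y - q = s • (q' - q) := by
      simp only [y, sub_smul, one_smul, smul_sub]; abel
    rw [this, norm_smul, Real.norm_of_nonneg hs0, ← dist_eq_norm, dist_comm]
    calc s * dist q q' ≤ s * dist q q' := le_rfl
      _ < s * (r + r') := by
        apply mul_lt_mul_of_pos_left hd
        positivity
      _ = r := by simp only [s]; field_simp
  have hyq' : y ∈ ball q' r' := by
    rw [mem_ball, dist_eq_norm]
    have : y - q' = (1 - s) • (q - q') := by
      simp only [y, sub_smul, one_smul, smul_sub]; abel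
    rw [this, norm_smul, Real.norm_of_nonneg hs1, ← dist_eq_norm]
    have h1s : 1 - s = r' / (r + r') := by simp only [s]; field_simp; ring
    rw [h1s]
    calc r' / (r + r') * dist q q' < r' / (r + r') * (r + r') := by
          apply mul_lt_mul_of_pos_left hd
          positivity
      _ = r' := by field_simp
  have hcl : y ∈ closure (ball (0 : E) R) := by
    rw [closure_ball _ hR.ne']; exact hy
  exact mem_closure_iff.1 hcl _ (isOpen_ball.inter isOpen_ball) ⟨hyq, hyq'⟩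

theorem ext_step {R : ℝ} (hR : 0 < R) (F : E → V)
    (hloc : ∀ q ∈ closedBall (0 : E) R, ∃ r > 0, ∃ F' : E → V,
      DifferentiableOn ℂ F' (ball q r) ∧ EqOn F' F (ball q r ∩ ball 0 R)) :
    ∃ R' > R, ∃ F' : E → V, DifferentiableOn ℂ F' (ball 0 R') ∧ EqOn F' F (ball 0 R) := by
  classical
  choose! r hr G hG hGF using hloc
  let F' : E → V := fun z =>
    if h : ∃ q ∈ closedBall (0 : E) R, z ∈ ball q (r q) then G h.choose z else 0
  have key : ∀ q ∈ closedBall (0 : E) R, EqOn F' (G q) (ball q (r q)) := by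
    intro q hq z hz
    have h : ∃ q ∈ closedBall (0 : E) R, z ∈ ball q (r q) := ⟨q, hq, hz⟩
    have e : F' z = G h.choose z := by simp only [F', dif_pos h]
    rw [e]
    obtain ⟨hq1, hz1⟩ := h.choose_spec
    set q1 := h.choose
    have hne := balls_meet hR hq1 hq (hr q1 hq1) (hr q hq) hz1 hz
    refine eqOn_of_open (isOpen_ball.inter isOpen_ball)
      ((convex_ball q1 (r q1)).inter (convex_ball q (r q)))
      ((hG q1 hq1).mono inter_subset_left) ((hG q hq).mono inter_subset_right)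
      ((isOpen_ball.inter isOpen_ball).inter isOpen_ball) hne inter_subset_left ?_ z ⟨hz1, hz⟩
    rintro w ⟨⟨hw1, hw2⟩, hw3⟩
    rw [hGF q1 hq1 ⟨hw1, hw3⟩, hGF q hq ⟨hw2, hw3⟩]
  let U : Set E := ⋃ q ∈ closedBall (0 : E) R, ball q (r q)
  have hU : IsOpen U := isOpen_biUnion (fun q _ => isOpen_ball)
  have hsub : closedBall (0 : E) R ⊆ U := fun q hq =>
    mem_biUnion hq (mem_ball_self (hr q hq))
  obtain ⟨δ, hδ, hδU⟩ := (isCompact_closedBall (0 : E) R).exists_thickening_subset_open hU hsub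
  rw [thickening_closedBall hδ hR.le] at hδU
  refine ⟨δ + R, by linarith, F', ?_, ?_⟩
  · intro z hz
    obtain ⟨q, hq, hzq⟩ := mem_iUnion₂.1 (hδU hz)
    have h1 : F' =ᶠ[𝓝 z] G q := by
      filter_upwards [isOpen_ball.mem_nhds hzq] with w hw
      exact key q hq hw
    have h2 : DifferentiableAt ℂ (G q) z := (hG q hq).differentiableAt (isOpen_ball.mem_nhds hzq)
    exact (h1.differentiableAt_iff.2 h2).differentiableWithinAt
  · intro z hz
    have hz' : z ∈ closedBall (0 : E) R := ball_subset_closedBall hz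
    rw [key z hz' (mem_ball_self (hr z hz')), hGF z hz' ⟨mem_ball_self (hr z hz'), hz⟩]

theorem glue_family {ρ : ℝ} (hρ : 0 < ρ) (F₀ : E → V) (S : Set ℝ)
    (hS : ∀ R ∈ S, ρ ≤ R ∧ ∃ F : E → V, DifferentiableOn ℂ F (ball 0 R) ∧
      EqOn F F₀ (ball 0 ρ)) (hne : S.Nonempty) :
    ∃ F : E → V, DifferentiableOn ℂ F (⋃ R ∈ S, ball 0 R) ∧ EqOn F F₀ (ball 0 ρ) := by
  classical
  have h1 : ∀ R ∈ S, ρ ≤ R := fun R hR => (hS R hR).1
  have h2 : ∀ R ∈ S, ∃ F : E → V, DifferentiableOn ℂ F (ball 0 R) ∧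
      EqOn F F₀ (ball 0 ρ) := fun R hR => (hS R hR).2
  choose! G hG hGF using h2
  let F : E → V := fun z => if h : ∃ R ∈ S, z ∈ ball (0 : E) R then G h.choose z else 0
  have key : ∀ R ∈ S, EqOn F (G R) (ball 0 R) := by
    intro R hR z hz
    have h : ∃ R ∈ S, z ∈ ball (0 : E) R := ⟨R, hR, hz⟩
    have e : F z = G h.choose z := by simp only [F, dif_pos h]
    rw [e]
    obtain ⟨hR1, hz1⟩ := h.choose_spec
    set R1 := h.choose
    refine eqOn_of_open (U := ball (0 : E) R1 ∩ ball 0 R) (O := ball (0 : E) ρ)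
      (isOpen_ball.inter isOpen_ball)
      ((convex_ball _ _).inter (convex_ball _ _))
      ((hG R1 hR1).mono inter_subset_left) ((hG R hR).mono inter_subset_right)
      isOpen_ball ⟨0, mem_ball_self hρ⟩ ?_ ?_ z ⟨hz1, hz⟩
    · exact subset_inter (ball_subset_ball (h1 R1 hR1)) (ball_subset_ball (h1 R hR))
    · intro w hw
      rw [hGF R1 hR1 hw, hGF R hR hw]
  refine ⟨F, ?_, ?_⟩
  · intro z hz
    obtain ⟨R, hR, hzR⟩ := mem_iUnion₂.1 hz
    have h1 : F =ᶠ[𝓝 z] G R := by
      filter_upwards [isOpen_ball.mem_nhds hzR] with w hw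
      exact key R hR hw
    have h2 : DifferentiableAt ℂ (G R) z := (hG R hR).differentiableAt (isOpen_ball.mem_nhds hzR)
    exact (h1.differentiableAt_iff.2 h2).differentiableWithinAt
  · obtain ⟨R, hR⟩ := hne
    intro z hz
    rw [key R hR (ball_subset_ball (h1 R hR) hz), hGF R hR hz]

theorem glue {ρ : ℝ} (hρ : 0 < ρ) (F₀ : E → V) (hF₀ : DifferentiableOn ℂ F₀ (ball 0 ρ))
    (hloc : ∀ R ≥ ρ, ∀ F : E → V, DifferentiableOn ℂ F (ball 0 R) → EqOn F F₀ (ball 0 ρ) →
      ∀ q ∈ closedBall (0 : E) R, ∃ r > 0, ∃ F' : E → V,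
      DifferentiableOn ℂ F' (ball q r) ∧ EqOn F' F (ball q r ∩ ball 0 R)) :
    ∃ F : E → V, Differentiable ℂ F ∧ EqOn F F₀ (ball 0 ρ) := by
  let S : Set ℝ := {R | ρ ≤ R ∧ ∃ F : E → V, DifferentiableOn ℂ F (ball 0 R) ∧
      EqOn F F₀ (ball 0 ρ)}
  have hρS : ρ ∈ S := ⟨le_rfl, F₀, hF₀, fun _ _ => rfl⟩
  have hall : ∀ R, ρ ≤ R → R ∈ S := by
    by_contra hcon
    push Not at hcon
    obtain ⟨R1, hR1, hR1S⟩ := hcon
    have hbd : BddAbove S := by
      refine ⟨R1, fun R hR => ?_⟩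
      by_contra hlt
      push Not at hlt
      obtain ⟨_, F, hF, hFF⟩ := hR
      exact hR1S ⟨hR1, F, hF.mono (ball_subset_ball hlt.le), hFF⟩
    have hρs : ρ ≤ sSup S := le_csSup hbd hρS
    obtain ⟨F, hF, hFF⟩ := glue_family hρ F₀ S (fun R hR => hR) ⟨ρ, hρS⟩
    have hcov : ball (0 : E) (sSup S) ⊆ ⋃ R ∈ S, ball (0 : E) R := by
      intro z hz
      rw [mem_ball] at hz
      obtain ⟨R, hR, hlt⟩ := exists_lt_of_lt_csSup ⟨ρ, hρS⟩ hz
      exact mem_biUnion hR (by rw [mem_ball]; exact hlt)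
    have hF' := hF.mono hcov
    obtain ⟨R', hR', F', hF'd, hF'F⟩ := ext_step (hρ.trans_le hρs) F
      (hloc (sSup S) hρs F hF' hFF)
    have : R' ∈ S := ⟨by linarith, F', hF'd, fun z hz => by
      rw [hF'F (ball_subset_ball hρs hz), hFF hz]⟩
    have := le_csSup hbd this
    linarith
  obtain ⟨F, hF, hFF⟩ := glue_family hρ F₀ S (fun R hR => hR) ⟨ρ, hρS⟩
  refine ⟨F, ?_, hFF⟩
  rw [← differentiableOn_univ]
  refine hF.mono (fun z _ => ?_)
  exact mem_biUnion (hall (max ρ (‖z‖ + 1)) (le_max_left _ _)) (by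
    rw [mem_ball, dist_zero_right]
    exact lt_of_lt_of_le (lt_add_one _) (le_max_right _ _))

end TH155.HR
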