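import Pool.Agent.TH155.HR.Basic
import Pool.Agent.TH155.HR.Complexify
import Pool.Agent.TH155.HR.Glue

set_option autoImplicit false

namespace TH155.HR

open Complex Set Metric Topology

variable {n r : ℕ}

/-- independence of the components of a map on a set -/
def Indep (G : (Fin n → ℂ) → (Fin r → ℂ)) (O : Set (Fin n → ℂ)) : Prop :=
  ∀ c : Fin r → ℂ, (∀ z ∈ O, ∑ i, c i * G z i = 0) → c = 0

theorem span_eq_top {G : (Fin n → ℂ) → (Fin r → ℂ)} {U O O₀ : Set (Fin n → ℂ)}
    (hU : IsOpen U) (hUc : Convex ℝ U) (hG : DifferentiableOn ℂ G U)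
    (hO : IsOpen O) (hOne : O.Nonempty) (hOU : O ⊆ U) (hO₀U : O₀ ⊆ U)
    (hi : Indep G O₀) : Submodule.span ℂ (G '' O) = ⊤ := by
  by_contra hne
  obtain ⟨f, hf0, hf⟩ := Submodule.exists_le_ker_of_lt_top _ (lt_top_iff_ne_top.2 hne)
  have hfv : ∀ v : Fin r → ℂ, f v = ∑ i, f (Pi.single i 1) * v i := by
    intro v
    rw [LinearMap.pi_apply_eq_sum_univ f v]
    apply Finset.sum_congr rfl
    intro i _
    rw [smul_eq_mul, mul_comm]
    congr 2
    ext j
    by_cases h : i = j
    · subst h; simp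
    · simp [h, Pi.single_eq_of_ne (Ne.symm h)]
  have h0 : ∀ z ∈ O, (fun z => ∑ i, f (Pi.single i 1) * G z i) z = 0 := by
    intro z hz
    have : G z ∈ LinearMap.ker f := hf (Submodule.subset_span ⟨z, hz, rfl⟩)
    rw [LinearMap.mem_ker, hfv] at this
    exact this
  have hd : DifferentiableOn ℂ (fun z => ∑ i, f (Pi.single i 1) * G z i) U := by
    apply DifferentiableOn.fun_sum
    intro i _
    exact (differentiableOn_pi.1 hG i).const_mul _
  have h1 := eqOn_zero_of_open hU hUc hd hO hOne hOU h0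
  have h2 : (fun i => f (Pi.single i 1)) = 0 := hi _ (fun z hz => h1 z (hO₀U hz))
  apply hf0
  ext i
  simpa using congrFun h2 i

theorem local_ext {p : (Fin n → ℂ) → ℝ} {q : Fin n → ℂ} {ε : ℝ}
    {P : (Fin n → ℂ) × (Fin n → ℂ) → ℂ}
    (hP : DifferentiableOn ℂ P (ball q ε ×ˢ (star ⁻¹' ball q ε)))
    (hPp : ∀ z ∈ ball q ε, P (z, star z) = p z)
    {O : Set (Fin n → ℂ)} (hO : IsOpen O) (hOc : Convex ℝ O) (hOb : O ⊆ ball q ε)
    {G H : (Fin n → ℂ) → (Fin r → ℂ)} (hG : DifferentiableOn ℂ G O) (hH : DifferentiableOn ℂ H O)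
    (hp : ∀ z ∈ O, (p z : ℂ) = ∑ i, G z i * star (H z i))
    (hspan : Submodule.span ℂ (H '' O) = ⊤) :
    ∃ G' : (Fin n → ℂ) → (Fin r → ℂ), DifferentiableOn ℂ G' (ball q ε) ∧ EqOn G' G O := by
  have hHs : DifferentiableOn ℂ (star ∘ H ∘ star) (star ⁻¹' O) := by
    intro w hw
    have h1 : DifferentiableAt ℂ H (star w) := hH.differentiableAt (hO.mem_nhds hw)
    have h2 := h1.star_star
    rw [star_star] at h2
    exact h2.differentiableWithinAt
  have key : ∀ z ∈ O, ∀ w ∈ O, P (z, star w) = ∑ i, G z i * star (H w i) := by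
    intro z hz w hw
    have := totally_real hO hOc (fun x => P x - ∑ i, G x.1 i * (star ∘ H ∘ star) x.2 i) ?_ ?_ z hz w hw
    · simpa [sub_eq_zero] using this
    · apply DifferentiableOn.fun_sub
      · exact hP.mono (prod_mono hOb (preimage_mono hOb))
      · apply DifferentiableOn.fun_sum
        intro i _
        apply DifferentiableOn.fun_mul
        · exact (differentiableOn_pi.1 hG i).comp differentiable_fst.differentiableOn
            (fun x hx => hx.1)
        · exact (differentiableOn_pi.1 hHs i).comp differentiable_snd.differentiableOn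
            (fun x hx => hx.2)
    · intro z hz
      simp only [Function.comp, star_star]
      rw [hPp z (hOb hz), hp z hz]
      simp
  let M : Submodule ℂ (Fin r → ℂ) :=
    { carrier := {v | ∃ g : (Fin n → ℂ) → ℂ, DifferentiableOn ℂ g (ball q ε) ∧
        ∀ z ∈ O, g z = ∑ i, G z i * star (v i)}
      add_mem' := by
        rintro v w ⟨g, hg, hgv⟩ ⟨g', hg', hgw⟩
        refine ⟨fun z => g z + g' z, hg.add hg', fun z hz => ?_⟩
        simp only [hgv z hz, hgw z hz, Pi.add_apply, star_add, mul_add, Finset.sum_add_distrib]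
      zero_mem' := ⟨fun _ => 0, differentiableOn_const _, fun z hz => by simp⟩
      smul_mem' := by
        rintro c v ⟨g, hg, hgv⟩
        refine ⟨fun z => star c * g z, hg.const_mul _, fun z hz => ?_⟩
        simp only [hgv z hz, Pi.smul_apply, smul_eq_mul, star_mul, Finset.mul_sum]
        apply Finset.sum_congr rfl
        intro i _
        ring }
  have hM : M = ⊤ := by
    rw [eq_top_iff, ← hspan, Submodule.span_le]
    rintro _ ⟨w, hw, rfl⟩
    refine ⟨fun z => P (z, star w), ?_, fun z hz => key z hz w hw⟩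
    have hd : Differentiable ℂ (fun z : Fin n → ℂ => (z, star w)) := by fun_prop
    exact hP.comp hd.differentiableOn (fun z hz => ⟨hz, by
      simp only [mem_preimage, star_star]; exact hOb hw⟩)
  have hall : ∀ i : Fin r, ∃ g : (Fin n → ℂ) → ℂ, DifferentiableOn ℂ g (ball q ε) ∧
        ∀ z ∈ O, g z = G z i := by
    intro i
    have : (Pi.single i 1 : Fin r → ℂ) ∈ M := by rw [hM]; trivial
    obtain ⟨g, hg, hgv⟩ := this
    refine ⟨g, hg, fun z hz => ?_⟩
    rw [hgv z hz, Finset.sum_eq_single i]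
    · simp
    · intro j _ hj
      simp [Pi.single_eq_of_ne hj]
    · simp
  choose g hg hgv using hall
  exact ⟨fun z i => g i z, differentiableOn_pi.2 hg, fun z hz => by ext i; exact hgv i z hz⟩

theorem real_cont {p : (Fin n → ℂ) → ℝ} (hp : AnalyticOnNhd ℝ p univ)
    {U O : Set (Fin n → ℂ)} (hU : IsOpen U) (hUc : Convex ℝ U) (hO : IsOpen O)
    (hOne : O.Nonempty) (hOU : O ⊆ U)
    {G H : (Fin n → ℂ) → (Fin r → ℂ)} (hG : DifferentiableOn ℂ G U) (hH : DifferentiableOn ℂ H U)
    (hpO : ∀ z ∈ O, (p z : ℂ) = ∑ i, G z i * star (H z i)) :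
    ∀ z ∈ U, (p z : ℂ) = ∑ i, G z i * star (H z i) := by
  intro z hz
  obtain ⟨x, hx⟩ := hOne
  let v : Fin n → ℂ := z - x
  let g : ℝ → (Fin n → ℂ) := fun τ => x + (τ : ℂ) • v
  have hgc : Continuous g := by fun_prop
  let S : Set ℝ := g ⁻¹' U
  have hSc : Convex ℝ S := by
    intro s hs t ht a b ha hb hab
    have := convex_line hUc x v (show (s : ℂ) ∈ (fun τ : ℂ => x + τ • v) ⁻¹' U from hs)
      (show (t : ℂ) ∈ (fun τ : ℂ => x + τ • v) ⁻¹' U from ht) ha hb hab
    simp only [mem_preimage, S, g] at *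
    convert this using 3
    simp
  have hA : AnalyticOnNhd ℝ (fun τ : ℝ => (p (g τ) : ℂ)) S := by
    intro τ _
    have h1 : AnalyticAt ℝ g τ := by
      have : g = fun τ : ℝ => x + τ • v := by
        ext τ i; simp [g]
      rw [this]
      fun_prop
    have h2 : AnalyticAt ℝ (p ∘ g) τ := (hp (g τ) (mem_univ _)).comp h1
    exact (Complex.ofRealCLM.analyticAt _).comp h2
  have hGa : ∀ τ ∈ S, ∀ i, AnalyticAt ℝ (fun τ : ℝ => G (g τ) i) τ := by
    intro τ hτ i
    have h1 : DifferentiableOn ℂ (fun s : ℂ => G (x + s • v) i) ((fun s : ℂ => x + s • v) ⁻¹' U) := by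
      refine (differentiableOn_pi.1 hG i).comp (f := fun s : ℂ => x + s • v) ?_ (fun s hs => hs)
      fun_prop
    have h2 : IsOpen ((fun s : ℂ => x + s • v) ⁻¹' U) := hU.preimage (by fun_prop)
    have h3 : AnalyticAt ℂ (fun s : ℂ => G (x + s • v) i) (τ : ℂ) := h1.analyticOnNhd h2 _ hτ
    have h4 : AnalyticAt ℝ (fun s : ℂ => G (x + s • v) i) (τ : ℂ) := h3.restrictScalars
    exact h4.comp (Complex.ofRealCLM.analyticAt τ)
  have hHa : ∀ τ ∈ S, ∀ i, AnalyticAt ℝ (fun τ : ℝ => star (H (g τ) i)) τ := by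
    intro τ hτ i
    have h1 : DifferentiableOn ℂ (fun s : ℂ => H (x + s • v) i) ((fun s : ℂ => x + s • v) ⁻¹' U) := by
      refine (differentiableOn_pi.1 hH i).comp (f := fun s : ℂ => x + s • v) ?_ (fun s hs => hs)
      fun_prop
    have h2 : IsOpen ((fun s : ℂ => x + s • v) ⁻¹' U) := hU.preimage (by fun_prop)
    have h3 : AnalyticAt ℂ (fun s : ℂ => H (x + s • v) i) (τ : ℂ) := h1.analyticOnNhd h2 _ hτ
    have h4 : AnalyticAt ℝ (fun s : ℂ => H (x + s • v) i) (τ : ℂ) := h3.restrictScalars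
    have h5 : AnalyticAt ℝ (fun τ : ℝ => H (g τ) i) τ := h4.comp (Complex.ofRealCLM.analyticAt τ)
    exact AnalyticAt.comp (g := fun z : ℂ => star z) (f := fun τ : ℝ => H (g τ) i) (x := τ)
      (Complex.conjCLE.toContinuousLinearMap.analyticAt _) h5
  have hB : AnalyticOnNhd ℝ (fun τ : ℝ => ∑ i, G (g τ) i * star (H (g τ) i)) S := by
    intro τ hτ
    apply Finset.analyticAt_fun_sum
    intro i _
    exact (hGa τ hτ i).mul (hHa τ hτ i)
  have h0 : (0 : ℝ) ∈ g ⁻¹' O := by simp [g, hx]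
  have h1 : (1 : ℝ) ∈ S := by simp [S, g, v, hz]
  have hev : (fun τ : ℝ => (p (g τ) : ℂ)) =ᶠ[𝓝 0] (fun τ : ℝ => ∑ i, G (g τ) i * star (H (g τ) i)) := by
    filter_upwards [(hO.preimage hgc).mem_nhds h0] with τ hτ
    exact hpO _ hτ
  have := hA.eqOn_of_preconnected_of_eventuallyEq hB hSc.isPreconnected (hOU h0 : (0 : ℝ) ∈ S) hev h1
  simpa [g, v] using this

/-- extension of a local finite rank representation to a global one -/
theorem global_rep {p : (Fin n → ℂ) → ℝ} (hp : AnalyticOnNhd ℝ p univ) {ρ : ℝ} (hρ : 0 < ρ)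
    {G H : (Fin n → ℂ) → (Fin r → ℂ)} (hG : DifferentiableOn ℂ G (ball 0 ρ))
    (hH : DifferentiableOn ℂ H (ball 0 ρ))
    (hpO : ∀ z ∈ ball (0 : Fin n → ℂ) ρ, (p z : ℂ) = ∑ i, G z i * star (H z i))
    (hGi : Indep G (ball 0 ρ)) (hHi : Indep H (ball 0 ρ)) :
    ∃ G' H' : (Fin n → ℂ) → (Fin r → ℂ), Differentiable ℂ G' ∧ Differentiable ℂ H' ∧
      ∀ z, (p z : ℂ) = ∑ i, G' z i * star (H' z i) := by
  have hglue : ∃ F : (Fin n → ℂ) → (Fin r → ℂ) × (Fin r → ℂ), Differentiable ℂ F ∧
      EqOn F (fun z => (G z, H z)) (ball 0 ρ) := by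
    refine glue (E := Fin n → ℂ) (V := (Fin r → ℂ) × (Fin r → ℂ)) hρ
      (fun z => (G z, H z)) (hG.prodMk hH) ?_
    intro R hR F hF hFF q hq
    have hR0 : 0 < R := hρ.trans_le hR
    obtain ⟨ε, hε, P, hP, hPp⟩ := exists_complexification (hp q (mem_univ q))
    let O : Set (Fin n → ℂ) := ball q ε ∩ ball 0 R
    have hO : IsOpen O := isOpen_ball.inter isOpen_ball
    have hOc : Convex ℝ O := (convex_ball _ _).inter (convex_ball _ _)
    have hOne : O.Nonempty := by
      have hcl : q ∈ closure (ball (0 : Fin n → ℂ) R) := by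
        rw [closure_ball _ hR0.ne']; exact hq
      exact mem_closure_iff.1 hcl _ isOpen_ball (mem_ball_self hε)
    have hrep : ∀ z ∈ ball (0 : Fin n → ℂ) R, (p z : ℂ) = ∑ i, (F z).1 i * star ((F z).2 i) := by
      refine real_cont hp isOpen_ball (convex_ball _ _) (O := ball 0 ρ) isOpen_ball
        ⟨0, mem_ball_self hρ⟩ (ball_subset_ball hR) (G := fun z => (F z).1)
        (H := fun z => (F z).2) hF.fst hF.snd ?_
      intro z hz
      rw [hpO z hz, hFF hz]
    have hGi' : Indep (fun z => (F z).1) (ball 0 ρ) := by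
      intro c hc
      refine hGi c (fun z hz => ?_)
      have := hc z hz
      simpa [hFF hz] using this
    have hHi' : Indep (fun z => (F z).2) (ball 0 ρ) := by
      intro c hc
      refine hHi c (fun z hz => ?_)
      have := hc z hz
      simpa [hFF hz] using this
    have hs1 := span_eq_top (G := fun z => (F z).1) (U := ball 0 R) (O := O) (O₀ := ball 0 ρ)
      isOpen_ball (convex_ball _ _) hF.fst hO hOne inter_subset_right (ball_subset_ball hR) hGi'
    have hs2 := span_eq_top (G := fun z => (F z).2) (U := ball 0 R) (O := O) (O₀ := ball 0 ρ)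
      isOpen_ball (convex_ball _ _) hF.snd hO hOne inter_subset_right (ball_subset_ball hR) hHi'
    obtain ⟨G', hG', hGG'⟩ := local_ext hP hPp hO hOc inter_subset_left
      (G := fun z => (F z).1) (H := fun z => (F z).2) (hF.fst.mono inter_subset_right)
      (hF.snd.mono inter_subset_right) (fun z hz => hrep z hz.2) hs2
    obtain ⟨H', hH', hHH'⟩ := local_ext hP hPp hO hOc inter_subset_left
      (G := fun z => (F z).2) (H := fun z => (F z).1) (hF.snd.mono inter_subset_right)
      (hF.fst.mono inter_subset_right) (fun z hz => by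
        have h1 := congrArg star (hrep z hz.2)
        rw [star_sum] at h1
        simp only [star_mul, star_star] at h1
        have h2 : star (p z : ℂ) = (p z : ℂ) := by simp
        rw [h2] at h1
        rw [h1]) hs1
    exact ⟨ε, hε, fun z => (G' z, H' z), hG'.prodMk hH', fun z hz => by
      have h1 := hGG' hz
      have h2 := hHH' hz
      simp only at h1 h2
      simp only [h1, h2]⟩
  · obtain ⟨F, hF, hFF⟩ := hglue
    refine ⟨fun z => (F z).1, fun z => (F z).2, hF.fst, hF.snd, ?_⟩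
    intro z
    refine real_cont hp isOpen_univ convex_univ (O := ball 0 ρ) isOpen_ball ⟨0, mem_ball_self hρ⟩
      (subset_univ _) (G := fun z => (F z).1) (H := fun z => (F z).2) hF.fst.differentiableOn
      hF.snd.differentiableOn ?_ z (mem_univ z)
    intro z hz
    rw [hpO z hz, hFF hz]

end TH155.HR
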