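import Pool.Agent.TH155.HR.Basic

set_option autoImplicit false

namespace TH155.HR

open Complex Set Metric Topology Module

theorem finrank_sup_le_card {V ι : Type*} [AddCommGroup V] [Module ℂ V] [FiniteDimensional ℂ V]
    (T : ι → Submodule ℂ V) (K : ℕ) (hT : ∀ i, finrank ℂ (T i) ≤ K) (s : Finset ι) :
    finrank ℂ (s.sup T : Submodule ℂ V) ≤ s.card * K := by
  classical
  induction s using Finset.induction_on with
  | empty => simp
  | insert a s ha ih =>
    rw [Finset.sup_insert, Finset.card_insert_of_notMem ha]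
    have := Submodule.finrank_add_le_finrank_add_finrank (T a) (s.sup T)
    have := hT a
    calc _ ≤ finrank ℂ (T a) + finrank ℂ (s.sup T : Submodule ℂ V) := by assumption
      _ ≤ K + s.card * K := by omega
      _ = (s.card + 1) * K := by ring

theorem mem_ball_cons {n : ℕ} {ρ : ℝ} (hρ : 0 < ρ) (t : ℂ) (x : Fin n → ℂ) :
    (Fin.cons t x : Fin (n + 1) → ℂ) ∈ ball (0 : Fin (n + 1) → ℂ) ρ ↔
      t ∈ ball (0 : ℂ) ρ ∧ x ∈ ball (0 : Fin n → ℂ) ρ := by
  simp only [mem_ball, dist_zero_right, pi_norm_lt_iff hρ]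
  constructor
  · intro h
    exact ⟨by simpa using h 0, fun i => by simpa using h i.succ⟩
  · rintro ⟨h0, h1⟩ i
    refine Fin.cases ?_ (fun i => ?_) i
    · simpa using h0
    · simpa using h1 i

theorem differentiable_cons {n : ℕ} (t : ℂ) :
    Differentiable ℂ (fun x : Fin n → ℂ => (Fin.cons t x : Fin (n + 1) → ℂ)) := by
  rw [differentiable_pi]
  intro i
  refine Fin.cases ?_ (fun i => ?_) i
  · simp
  · simp only [Fin.cons_succ]; fun_prop

/-- separately finite dimensional implies finite dimensional -/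
theorem span_rank_le {V : Type*} [NormedAddCommGroup V] [NormedSpace ℂ V] [FiniteDimensional ℂ V]
    {ρ : ℝ} (hρ : 0 < ρ) (k : ℕ) (n : ℕ) :
    ∀ (v : (Fin n → ℂ) → V), DifferentiableOn ℂ v (ball 0 ρ) →
    (∀ (l : Fin n) (a : Fin n → ℂ), a ∈ ball (0 : Fin n → ℂ) ρ →
      finrank ℂ (Submodule.span ℂ (v '' ((fun t => Function.update a l t) '' ball (0 : ℂ) ρ))) ≤ k) →
    finrank ℂ (Submodule.span ℂ (v '' ball 0 ρ)) ≤ k ^ n := by
  induction n with
  | zero =>
    intro v _ _
    have : v '' ball 0 ρ = {v 0} := by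
      ext y
      constructor
      · rintro ⟨z, _, rfl⟩
        rw [Subsingleton.elim z 0]; rfl
      · rintro rfl
        exact ⟨0, mem_ball_self hρ, rfl⟩
    rw [this, pow_zero]
    exact (finrank_span_le_card ({v 0} : Set V)).trans (by simp)
  | succ n ih =>
    intro v hv hk
    let S : (Fin n → ℂ) → Submodule ℂ V := fun x =>
      Submodule.span ℂ ((fun t : ℂ => v (Fin.cons t x)) '' ball (0 : ℂ) ρ)
    let T : ℂ → Submodule ℂ V := fun t =>
      Submodule.span ℂ ((fun x : Fin n → ℂ => v (Fin.cons t x)) '' ball (0 : Fin n → ℂ) ρ)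
    have hS : ∀ x ∈ ball (0 : Fin n → ℂ) ρ, finrank ℂ (S x) ≤ k := by
      intro x hx
      have h := hk 0 (Fin.cons 0 x) ((mem_ball_cons hρ _ _).2 ⟨mem_ball_self hρ, hx⟩)
      have e : v '' ((fun t => Function.update (Fin.cons 0 x : Fin (n + 1) → ℂ) 0 t) '' ball (0 : ℂ) ρ)
          = (fun t : ℂ => v (Fin.cons t x)) '' ball (0 : ℂ) ρ := by
        rw [image_image]
        apply image_congr
        intro t _
        rw [Fin.update_cons_zero]
      rw [e] at h
      exact h
    have hT : ∀ t ∈ ball (0 : ℂ) ρ, finrank ℂ (T t) ≤ k ^ n := by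
      intro t ht
      refine ih (fun x => v (Fin.cons t x)) ?_ ?_
      · exact hv.comp (differentiable_cons t).differentiableOn
          (fun x hx => (mem_ball_cons hρ _ _).2 ⟨ht, hx⟩)
      · intro l a ha
        have h := hk l.succ (Fin.cons t a) ((mem_ball_cons hρ _ _).2 ⟨ht, ha⟩)
        have e : v '' ((fun s => Function.update (Fin.cons t a : Fin (n + 1) → ℂ) l.succ s) '' ball (0 : ℂ) ρ)
          = (fun x : Fin n → ℂ => v (Fin.cons t x)) '' ((fun s => Function.update a l s) '' ball (0 : ℂ) ρ) := by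
          rw [image_image, image_image]
          apply image_congr
          intro s _
          rw [Fin.cons_update]
        rw [e] at h
        exact h
    -- maximal rank point
    let A : Set ℕ := (fun x => finrank ℂ (S x)) '' ball (0 : Fin n → ℂ) ρ
    have hAne : A.Nonempty := ⟨_, 0, mem_ball_self hρ, rfl⟩
    have hAb : BddAbove A := ⟨k, by rintro _ ⟨x, hx, rfl⟩; exact hS x hx⟩
    obtain ⟨x₀, hx₀, hmax₀⟩ := Nat.sSup_mem hAne hAb
    have hmax : ∀ x ∈ ball (0 : Fin n → ℂ) ρ, finrank ℂ (S x) ≤ finrank ℂ (S x₀) := by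
      intro x hx
      have := le_csSup hAb ⟨x, hx, rfl⟩
      simp only at hmax₀ this
      rw [hmax₀]; exact this
    obtain ⟨f, hf, _, hfi⟩ := Submodule.exists_fun_fin_finrank_span_eq ℂ
      ((fun t : ℂ => v (Fin.cons t x₀)) '' ball (0 : ℂ) ρ)
    choose t ht htf using hf
    let W : Submodule ℂ V := (Finset.univ : Finset (Fin (finrank ℂ (S x₀)))).sup (fun i => T (t i))
    have hWr : finrank ℂ W ≤ k ^ (n + 1) := by
      refine (finrank_sup_le_card (fun i => T (t i)) (k ^ n) (fun i => hT _ (ht i)) _).trans ?_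
      rw [Finset.card_univ, Fintype.card_fin, pow_succ']
      exact Nat.mul_le_mul_right _ (hS x₀ hx₀)
    -- openness of independence
    have hcont : ContinuousAt (fun x : Fin n → ℂ => fun i => v (Fin.cons (t i) x)) x₀ := by
      rw [continuousAt_pi]
      intro i
      have h1 : ContinuousAt v (Fin.cons (t i) x₀) :=
        (hv.differentiableAt (isOpen_ball.mem_nhds
          ((mem_ball_cons hρ _ _).2 ⟨ht i, hx₀⟩))).continuousAt
      exact ContinuousAt.comp (f := fun x : Fin n → ℂ => (Fin.cons (t i) x : Fin (n + 1) → ℂ)) h1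
        (differentiable_cons (t i)).continuous.continuousAt
    have hind₀ : (fun i => v (Fin.cons (t i) x₀)) ∈
        {g : Fin (finrank ℂ (S x₀)) → V | LinearIndependent ℂ g} := by
      show LinearIndependent ℂ (fun i => v (Fin.cons (t i) x₀))
      have e : (fun i => v (Fin.cons (t i) x₀)) = f := funext (fun i => htf i)
      rw [e]; exact hfi
    have hev : ∀ᶠ x in 𝓝 x₀, LinearIndependent ℂ (fun i => v (Fin.cons (t i) x)) :=
      hcont.eventually (isOpen_setOfPred_linearIndependent.mem_nhds hind₀)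
    have hev2 : ∀ᶠ x in 𝓝 x₀, x ∈ ball (0 : Fin n → ℂ) ρ := isOpen_ball.mem_nhds hx₀
    obtain ⟨δ, hδ, hball⟩ := Metric.eventually_nhds_iff_ball.1 (hev.and hev2)
    have hloc : ∀ x ∈ ball x₀ δ, ∀ s ∈ ball (0 : ℂ) ρ, v (Fin.cons s x) ∈ W := by
      intro x hx s hs
      obtain ⟨hi, hxb⟩ := hball x hx
      have hle : Submodule.span ℂ (range (fun i => v (Fin.cons (t i) x))) ≤ S x := by
        apply Submodule.span_mono
        rintro _ ⟨i, rfl⟩
        exact ⟨t i, ht i, rfl⟩
      have hfr : finrank ℂ (S x) ≤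
          finrank ℂ (Submodule.span ℂ (range (fun i => v (Fin.cons (t i) x)))) := by
        rw [finrank_span_eq_card hi, Fintype.card_fin]
        exact hmax x hxb
      have heq := Submodule.eq_of_le_of_finrank_le hle hfr
      have hmem : v (Fin.cons s x) ∈ S x := Submodule.subset_span ⟨s, hs, rfl⟩
      rw [← heq] at hmem
      refine (Submodule.span_le.2 ?_) hmem
      rintro _ ⟨i, rfl⟩
      have h1 : T (t i) ≤ W := Finset.le_sup (f := fun i => T (t i)) (Finset.mem_univ i)
      exact h1 (Submodule.subset_span ⟨x, hxb, rfl⟩)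
    have hall : Submodule.span ℂ (v '' ball 0 ρ) ≤ W := by
      rw [Submodule.span_le]
      rintro _ ⟨z, hz, rfl⟩
      by_contra hne
      obtain ⟨f, hfz, hfW⟩ := Submodule.exists_le_ker_of_notMem hne
      let fc : V →L[ℂ] ℂ := LinearMap.toContinuousLinearMap f
      have hz' : z = Fin.cons (z 0) (Fin.tail z) := (Fin.cons_self_tail z).symm
      rw [hz'] at hz hfz
      obtain ⟨hz0, hz1⟩ := (mem_ball_cons hρ _ _).1 hz
      have hd : DifferentiableOn ℂ (fun x : Fin n → ℂ => fc (v (Fin.cons (z 0) x)))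
          (ball (0 : Fin n → ℂ) ρ) := by
        refine fc.differentiable.comp_differentiableOn ?_
        exact hv.comp (differentiable_cons (z 0)).differentiableOn
          (fun x hx => (mem_ball_cons hρ _ _).2 ⟨hz0, hx⟩)
      have := eqOn_zero_of_open (O := ball x₀ δ) isOpen_ball (convex_ball _ _) hd isOpen_ball
        ⟨x₀, mem_ball_self hδ⟩ (fun x hx => (hball x hx).2) (fun x hx => by
          have := hfW (hloc x hx (z 0) hz0)
          simpa [fc] using this) (Fin.tail z) hz1
      exact hfz (by simpa [fc] using this)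
    exact (Submodule.finrank_mono hall).trans hWr

/-- vanishing of minors bounds the rank -/
theorem rank_le_of_minors {X Y : Type*} (K : X → Y → ℂ) (S : Set X) (r : ℕ) {ι : Type*} [Fintype ι]
    (y : ι → Y) (h : ∀ x : Fin (r + 1) → X, (∀ i, x i ∈ S) → ∀ j : Fin (r + 1) → ι,
      (Matrix.of fun a b => K (x a) (y (j b))).det = 0) :
    finrank ℂ (Submodule.span ℂ ((fun x => fun j => K x (y j)) '' S)) ≤ r := by
  classical
  by_contra hlt
  push Not at hlt
  obtain ⟨f, hf, _, hfi⟩ := Submodule.exists_fun_fin_finrank_span_eq ℂ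
      ((fun x => fun j => K x (y j)) '' S)
  choose x hx hxf using hf
  let c : Fin (r + 1) → Fin (finrank ℂ (Submodule.span ℂ ((fun x => fun j => K x (y j)) '' S))) :=
    Fin.castLE hlt
  have hc : Function.Injective c := Fin.castLE_injective _
  let M : Matrix (Fin (r + 1)) ι ℂ := Matrix.of fun a j => K (x (c a)) (y j)
  have hMrow : LinearIndependent ℂ M.row := by
    have h1 := hfi.comp c hc
    have e : M.row = f ∘ c := by
      funext a
      have := hxf (c a)
      simp only [Function.comp, ← this]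
      rfl
    rw [e]; exact h1
  have hrank := hMrow.rank_matrix
  rw [Matrix.rank_eq_finrank_span_cols, Fintype.card_fin] at hrank
  obtain ⟨g, hg, _, hgi⟩ := Submodule.exists_fun_fin_finrank_span_eq ℂ (range M.col)
  choose j hj using hg
  let e : Fin (r + 1) → Fin (finrank ℂ (Submodule.span ℂ (range M.col))) := Fin.cast hrank.symm
  have he : Function.Injective e := Fin.cast_injective _
  have hgi' := hgi.comp e he
  have hcol : LinearIndependent ℂ
      (Matrix.of fun a b => K (x (c a)) (y (j (e b))) : Matrix (Fin (r + 1)) (Fin (r + 1)) ℂ).col := by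
    have e2 : (Matrix.of fun a b => K (x (c a)) (y (j (e b))) :
        Matrix (Fin (r + 1)) (Fin (r + 1)) ℂ).col = g ∘ e := by
      funext b
      have := hj (e b)
      simp only [Function.comp, ← this]
      rfl
    rw [e2]; exact hgi'
  rw [Matrix.linearIndependent_cols_iff_isUnit, Matrix.isUnit_iff_isUnit_det] at hcol
  exact hcol.ne_zero (h (fun a => x (c a)) (fun a => hx _) (fun b => j (e b)))

/-- rank bound gives vanishing of minors -/
theorem minors_of_rank_le {X Y : Type*} (K : X → Y → ℂ) (S : Set X) (r : ℕ)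
    (y : Fin (r + 1) → Y)
    (h : finrank ℂ (Submodule.span ℂ ((fun x => fun j => K x (y j)) '' S)) ≤ r)
    (x : Fin (r + 1) → X) (hx : ∀ i, x i ∈ S) :
    (Matrix.of fun a b => K (x a) (y b)).det = 0 := by
  by_contra hne
  have hu : IsUnit (Matrix.of fun a b => K (x a) (y b)) := by
    rw [Matrix.isUnit_iff_isUnit_det]; exact isUnit_iff_ne_zero.2 hne
  rw [← Matrix.linearIndependent_rows_iff_isUnit] at hu
  have h1 := finrank_span_eq_card hu
  rw [Fintype.card_fin] at h1
  have h2 : Submodule.span ℂ (range (Matrix.of fun a b => K (x a) (y b)).row) ≤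
      Submodule.span ℂ ((fun x => fun j => K x (y j)) '' S) := by
    apply Submodule.span_mono
    rintro _ ⟨a, rfl⟩
    exact ⟨x a, hx a, by ext b; simp [Matrix.row]⟩
  have := Submodule.finrank_mono h2
  omega

end TH155.HR
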