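import Pool.Agent.TH155.HR.Basic
import Pool.Agent.TH155.HR.Rank

set_option autoImplicit false

namespace TH155.HR

open Complex Set Metric Topology Module

theorem det_mul_eq_zero {k : ℕ} (A : Matrix (Fin (k + 1)) (Fin k) ℂ)
    (B : Matrix (Fin k) (Fin (k + 1)) ℂ) : (A * B).det = 0 := by
  by_contra hne
  have hu : IsUnit (A * B) := by
    rw [Matrix.isUnit_iff_isUnit_det]; exact isUnit_iff_ne_zero.2 hne
  have h1 := Matrix.rank_of_isUnit _ hu
  have h2 := Matrix.rank_mul_le_left A B
  have h3 := Matrix.rank_le_card_width A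
  simp only [Fintype.card_fin] at h1 h3
  omega

theorem differentiableOn_prod' {E ι : Type*} [NormedAddCommGroup E] [NormedSpace ℂ E]
    {S : Set E} (f : ι → E → ℂ) (u : Finset ι) (hf : ∀ i ∈ u, DifferentiableOn ℂ (f i) S) :
    DifferentiableOn ℂ (fun x => ∏ i ∈ u, f i x) S := by
  classical
  induction u using Finset.induction_on with
  | empty => simp
  | insert a u ha ih =>
    simp only [Finset.prod_insert ha]
    apply DifferentiableOn.fun_mul
    · exact hf a (Finset.mem_insert_self _ _)
    · exact ih (fun i hi => hf i (Finset.mem_insert_of_mem hi))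

theorem differentiableOn_det {E ι : Type*} [NormedAddCommGroup E] [NormedSpace ℂ E] [Fintype ι]
    [DecidableEq ι] {S : Set E} (M : E → Matrix ι ι ℂ)
    (hM : ∀ i j, DifferentiableOn ℂ (fun x => M x i j) S) :
    DifferentiableOn ℂ (fun x => (M x).det) S := by
  have : (fun x => (M x).det) = fun x => ∑ σ : Equiv.Perm ι,
      ((Equiv.Perm.sign σ : ℤ) : ℂ) * ∏ i, M x (σ i) i := by
    ext x
    rw [Matrix.det_apply']
  rw [this]
  apply DifferentiableOn.fun_sum
  intro σ _
  apply DifferentiableOn.const_mul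
  apply differentiableOn_prod'
  intro i _
  exact hM _ _

theorem line_minors {n k : ℕ} {ε : ℝ} {p : (Fin n → ℂ) → ℝ}
    {P : (Fin n → ℂ) × (Fin n → ℂ) → ℂ}
    (hP : DifferentiableOn ℂ P (ball 0 ε ×ˢ (star ⁻¹' ball 0 ε)))
    (hPp : ∀ z ∈ ball 0 ε, P (z, star z) = p z)
    (hline : ∀ a b : Fin n → ℂ, ∃ (e : Fin k → ℝ) (g : Fin k → ℂ → ℂ),
      (∀ j, Differentiable ℂ (g j)) ∧ ∀ t : ℂ, p (a + t • b) = ∑ j, e j * normSq (g j t))
    (t s : Fin (k + 1) → ℂ) (ht : ∀ i, ‖t i‖ ≤ 1) (hs : ∀ i, ‖s i‖ ≤ 1)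
    (a b α β : Fin n → ℂ) (ha : ‖a‖ < ε / 2) (hb : ‖b‖ < ε / 2) (hα : ‖α‖ < ε / 2)
    (hβ : ‖β‖ < ε / 2) :
    (Matrix.of fun i j => P (a + t i • b, α + s j • β)).det = 0 := by
  have hin : ∀ a b : Fin n → ℂ, ‖a‖ < ε / 2 → ‖b‖ < ε / 2 → ∀ t : ℂ, ‖t‖ ≤ 1 →
      a + t • b ∈ ball (0 : Fin n → ℂ) ε := by
    intro a b ha hb t ht
    rw [mem_ball, dist_zero_right]
    calc ‖a + t • b‖ ≤ ‖a‖ + ‖t • b‖ := norm_add_le _ _
      _ = ‖a‖ + ‖t‖ * ‖b‖ := by rw [norm_smul]
      _ ≤ ‖a‖ + 1 * ‖b‖ := by gcongr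
      _ < ε := by linarith
  have hdiag : ∀ a b : Fin n → ℂ, ‖a‖ < ε / 2 → ‖b‖ < ε / 2 →
      (Matrix.of fun i j => P (a + t i • b, star (a + star (s j) • b))).det = 0 := by
    intro a b ha hb
    obtain ⟨e, g, hg, hpg⟩ := hline a b
    have hO : IsOpen ((fun τ : ℂ => a + τ • b) ⁻¹' ball (0 : Fin n → ℂ) ε) :=
      isOpen_ball.preimage (by fun_prop)
    have hOc := convex_line (convex_ball (0 : Fin n → ℂ) ε) a b
    have hgs : ∀ j, Differentiable ℂ (star ∘ g j ∘ star) := by
      intro j w
      have h2 := (hg j (star w)).star_star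
      rwa [star_star] at h2
    have key := totally_real hO hOc
      (fun x => P (a + x.1 • b, star a + x.2 • star b) -
        ∑ l, (e l : ℂ) * (g l x.1 * (star ∘ g l ∘ star) x.2)) ?_ ?_
    · have hfac : (Matrix.of fun i j => P (a + t i • b, star (a + star (s j) • b))) =
          (Matrix.of fun i l => (e l : ℂ) * g l (t i) : Matrix (Fin (k + 1)) (Fin k) ℂ) *
          (Matrix.of fun l j => star (g l (star (s j))) : Matrix (Fin k) (Fin (k + 1)) ℂ) := by
        ext i j
        rw [Matrix.mul_apply]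
        simp only [Matrix.of_apply]
        have h1 := key (t i) (hin a b ha hb _ (ht i)) (star (s j)) (hin a b ha hb _ (by
          rw [norm_star]; exact hs j))
        simp only [Function.comp, star_star] at h1
        rw [star_add, star_smul, star_star]
        rw [sub_eq_zero] at h1
        rw [h1]
        apply Finset.sum_congr rfl
        intro l _
        ring
      rw [hfac]
      exact det_mul_eq_zero _ _
    · apply DifferentiableOn.fun_sub
      · refine hP.comp (f := fun x : ℂ × ℂ => (a + x.1 • b, star a + x.2 • star b)) ?_ ?_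
        · apply Differentiable.differentiableOn
          apply Differentiable.prodMk <;> fun_prop
        · rintro x ⟨hx1, hx2⟩
          refine ⟨hx1, ?_⟩
          simp only [mem_preimage] at hx2 ⊢
          rw [star_add, star_smul, star_star, star_star]
          exact hx2
      · apply DifferentiableOn.fun_sum
        intro l _
        apply DifferentiableOn.const_mul
        apply DifferentiableOn.fun_mul
        · exact ((hg l).comp differentiable_fst).differentiableOn
        · exact ((hgs l).comp differentiable_snd).differentiableOn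
    · intro z hz
      simp only [Function.comp, star_star]
      have h1 : star a + star z • star b = star (a + z • b) := by rw [star_add, star_smul]
      rw [h1, hPp _ hz, hpg z]
      push_cast
      rw [sub_eq_zero]
      apply Finset.sum_congr rfl
      intro l _
      congr 1
      rw [← Complex.mul_conj]
      rfl
  -- off diagonal
  have hb' : ∀ x : (Fin n → ℂ) × (Fin n → ℂ), x ∈ ball (0 : (Fin n → ℂ) × (Fin n → ℂ)) (ε / 2) ↔ ‖x.1‖ < ε / 2 ∧ ‖x.2‖ < ε / 2 := by
    intro x
    rw [mem_ball, dist_zero_right, Prod.norm_def, max_lt_iff]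
  have key := totally_real (E := (Fin n → ℂ) × (Fin n → ℂ)) (O := ball 0 (ε / 2)) isOpen_ball (convex_ball _ _)
    (fun X => (Matrix.of fun i j => P (X.1.1 + t i • X.1.2, X.2.1 + s j • X.2.2)).det) ?_ ?_
  · have h1 := key (a, b) ((hb' _).2 ⟨ha, hb⟩) (star α, star β) ((hb' _).2
      ⟨by simpa only [norm_star] using hα, by simpa only [norm_star] using hβ⟩)
    have e : star ((star α, star β) : (Fin n → ℂ) × (Fin n → ℂ)) = (α, β) := by
      show (star (star α), star (star β)) = (α, β)
      rw [star_star, star_star]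
    rw [e] at h1
    exact h1
  · apply differentiableOn_det
    intro i j
    simp only [Matrix.of_apply]
    refine hP.comp (f := fun X : ((Fin n → ℂ) × (Fin n → ℂ)) × ((Fin n → ℂ) × (Fin n → ℂ)) => (X.1.1 + t i • X.1.2, X.2.1 + s j • X.2.2)) ?_ ?_
    · apply Differentiable.differentiableOn
      apply Differentiable.prodMk <;> fun_prop
    · rintro X ⟨hX1, hX2⟩
      rw [hb'] at hX1
      rw [mem_preimage, hb'] at hX2
      refine ⟨hin _ _ hX1.1 hX1.2 _ (ht i), ?_⟩
      rw [mem_preimage, star_add, star_smul]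
      exact hin _ _ hX2.1 hX2.2 _ (by rw [norm_star]; exact hs j)
  · intro x hx
    rw [hb'] at hx
    have h1 := hdiag x.1 x.2 hx.1 hx.2
    have e : (Matrix.of fun i j => P ((x, star x).1.1 + t i • (x, star x).1.2,
        (x, star x).2.1 + s j • (x, star x).2.2)) =
        Matrix.of fun i j => P (x.1 + t i • x.2, star (x.1 + star (s j) • x.2)) := by
      ext i j
      simp only [Matrix.of_apply]
      rw [star_add, star_smul, star_star]
      rfl
    show Matrix.det _ = 0
    rw [e]; exact h1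

theorem minors_all {n k : ℕ} {ρ : ℝ} (hρ : 0 < ρ) (P : (Fin n → ℂ) × (Fin n → ℂ) → ℂ)
    (hP : DifferentiableOn ℂ P (ball 0 ρ ×ˢ ball 0 ρ))
    (hM : ∀ (l l' : Fin n) (a α : Fin n → ℂ), a ∈ ball (0 : Fin n → ℂ) ρ →
      α ∈ ball (0 : Fin n → ℂ) ρ → ∀ t s : Fin (k + 1) → ℂ, (∀ i, t i ∈ ball (0 : ℂ) ρ) →
      (∀ j, s j ∈ ball (0 : ℂ) ρ) →
      (Matrix.of fun i j => P (Function.update a l (t i), Function.update α l' (s j))).det = 0) :
    ∀ (z w : Fin ((k ^ n) ^ n + 1) → (Fin n → ℂ)), (∀ i, z i ∈ ball (0 : Fin n → ℂ) ρ) →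
      (∀ j, w j ∈ ball (0 : Fin n → ℂ) ρ) → (Matrix.of fun i j => P (z i, w j)).det = 0 := by
  have hupd : ∀ (l : Fin n) (a : Fin n → ℂ), a ∈ ball (0 : Fin n → ℂ) ρ → ∀ t ∈ ball (0 : ℂ) ρ,
      Function.update a l t ∈ ball (0 : Fin n → ℂ) ρ := by
    intro l a ha t ht
    rw [mem_ball, dist_zero_right] at *
    rw [pi_norm_lt_iff hρ] at *
    intro i
    by_cases h : i = l
    · subst h; simpa using ht
    · rw [Function.update_of_ne h]; exact ha i
  have step1 : ∀ (l' : Fin n) (α : Fin n → ℂ), α ∈ ball (0 : Fin n → ℂ) ρ →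
      ∀ s : Fin (k ^ n + 1) → ℂ, (∀ j, s j ∈ ball (0 : ℂ) ρ) →
      ∀ z : Fin (k ^ n + 1) → (Fin n → ℂ), (∀ i, z i ∈ ball (0 : Fin n → ℂ) ρ) →
      (Matrix.of fun i j => P (z i, Function.update α l' (s j))).det = 0 := by
    intro l' α hα s hs z hz
    refine minors_of_rank_le (fun z y => P (z, y)) (ball (0 : Fin n → ℂ) ρ) (k ^ n)
      (fun j => Function.update α l' (s j)) ?_ z hz
    refine span_rank_le hρ k n
      (fun z => fun j : Fin (k ^ n + 1) => P (z, Function.update α l' (s j))) ?_ ?_
    · rw [differentiableOn_pi]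
      intro j
      refine hP.comp (f := fun z : Fin n → ℂ => (z, Function.update α l' (s j))) ?_ ?_
      · apply Differentiable.differentiableOn
        apply Differentiable.prodMk <;> fun_prop
      · intro z hz
        exact ⟨hz, hupd l' α hα _ (hs j)⟩
    · intro l a ha
      rw [image_image]
      exact rank_le_of_minors (fun t y => P (Function.update a l t, y)) (ball (0 : ℂ) ρ) k
        (fun j => Function.update α l' (s j)) (fun x hx j => hM l l' a α ha hα x _ hx
          (fun b => hs (j b)))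
  intro z w hz hw
  have h2 : (Matrix.of fun a b => P (z b, w a)).det = 0 := by
    refine minors_of_rank_le (fun w y => P (y, w)) (ball (0 : Fin n → ℂ) ρ) ((k ^ n) ^ n)
      z ?_ w hw
    refine span_rank_le hρ (k ^ n) n
      (fun w => fun i : Fin ((k ^ n) ^ n + 1) => P (z i, w)) ?_ ?_
    · rw [differentiableOn_pi]
      intro j
      refine hP.comp (f := fun w : Fin n → ℂ => (z j, w)) ?_ ?_
      · apply Differentiable.differentiableOn
        apply Differentiable.prodMk <;> fun_prop
      · intro w hw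
        exact ⟨hz j, hw⟩
    · intro l α hα
      rw [image_image]
      refine rank_le_of_minors (fun s y => P (y, Function.update α l s)) (ball (0 : ℂ) ρ) (k ^ n)
        z (fun x hx j => ?_)
      rw [← Matrix.det_transpose]
      exact step1 l α hα x hx (fun b => z (j b)) (fun b => hz (j b))
  rw [← Matrix.det_transpose]
  exact h2

end TH155.HR
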