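import Pool.Agent.TH155.HR.Ext
import Pool.Agent.TH155.HR.Kernel

set_option autoImplicit false

namespace TH155.HR

open Complex Set Metric Topology Module

/-- a kernel with vanishing minors is factored through a nonvanishing minor of maximal size -/
theorem bordered {X Y : Type*} (K : X → Y → ℂ) {r : ℕ} (x : Fin r → X) (y : Fin r → Y)
    (hdet : (Matrix.of fun i j => K (x i) (y j)).det ≠ 0) (z : X) (w : Y)
    (h : (Matrix.of fun i j => K ((Fin.snoc x z : Fin (r + 1) → X) i)
      ((Fin.snoc y w : Fin (r + 1) → Y) j)).det = 0) :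
    K z w = ∑ j, K z (y j) * ∑ i, (Matrix.of fun i j => K (x i) (y j))⁻¹ j i * K (x i) w := by
  classical
  let A : Matrix (Fin r) (Fin r) ℂ := Matrix.of fun i j => K (x i) (y j)
  have hA : IsUnit A.det := isUnit_iff_ne_zero.2 hdet
  letI : Invertible A := Matrix.invertibleOfIsUnitDet A hA
  let B : Matrix (Fin r) (Fin 1) ℂ := Matrix.of fun i _ => K (x i) w
  let C : Matrix (Fin 1) (Fin r) ℂ := Matrix.of fun _ j => K z (y j)
  let D : Matrix (Fin 1) (Fin 1) ℂ := Matrix.of fun _ _ => K z w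
  have hblock : (Matrix.fromBlocks A B C D) =
      (Matrix.of fun i j => K ((Fin.snoc x z : Fin (r + 1) → X) i)
      ((Fin.snoc y w : Fin (r + 1) → Y) j)).submatrix finSumFinEquiv finSumFinEquiv := by
    have hx1 : ∀ i : Fin r, (Fin.snoc x z : Fin (r + 1) → X) (finSumFinEquiv (Sum.inl i)) = x i := by
      intro i
      rw [finSumFinEquiv_apply_left]
      exact Fin.snoc_castSucc (α := fun _ => X) z x i
    have hx2 : ∀ i : Fin 1, (Fin.snoc x z : Fin (r + 1) → X) (finSumFinEquiv (Sum.inr i)) = z := by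
      intro i
      rw [finSumFinEquiv_apply_right]
      have : Fin.natAdd r i = Fin.last r := by ext; simp
      rw [this]
      exact Fin.snoc_last (α := fun _ => X) z x
    have hy1 : ∀ i : Fin r, (Fin.snoc y w : Fin (r + 1) → Y) (finSumFinEquiv (Sum.inl i)) = y i := by
      intro i
      rw [finSumFinEquiv_apply_left]
      exact Fin.snoc_castSucc (α := fun _ => Y) w y i
    have hy2 : ∀ i : Fin 1, (Fin.snoc y w : Fin (r + 1) → Y) (finSumFinEquiv (Sum.inr i)) = w := by
      intro i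
      rw [finSumFinEquiv_apply_right]
      have : Fin.natAdd r i = Fin.last r := by ext; simp
      rw [this]
      exact Fin.snoc_last (α := fun _ => Y) w y
    ext i j
    rcases i with i | i <;> rcases j with j | j
    · simp only [Matrix.fromBlocks_apply₁₁, Matrix.submatrix_apply, Matrix.of_apply, A]
      rw [hx1, hy1]
    · simp only [Matrix.fromBlocks_apply₁₂, Matrix.submatrix_apply, Matrix.of_apply, B]
      rw [hx1, hy2]
    · simp only [Matrix.fromBlocks_apply₂₁, Matrix.submatrix_apply, Matrix.of_apply, C]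
      rw [hx2, hy1]
    · simp only [Matrix.fromBlocks_apply₂₂, Matrix.submatrix_apply, Matrix.of_apply, D]
      rw [hx2, hy2]
  have h1 : (Matrix.fromBlocks A B C D).det = 0 := by
    rw [hblock, Matrix.det_submatrix_equiv_self]; exact h
  rw [Matrix.det_fromBlocks₁₁] at h1
  have h2 : (D - C * ⅟A * B).det = 0 := by
    rcases mul_eq_zero.1 h1 with h | h
    · exact absurd h hdet
    · exact h
  rw [Matrix.det_fin_one, Matrix.sub_apply, sub_eq_zero] at h2
  have h3 : D 0 0 = K z w := rfl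
  rw [h3] at h2
  rw [h2, Matrix.mul_assoc, Matrix.mul_apply]
  apply Finset.sum_congr rfl
  intro j _
  rw [Matrix.mul_apply, Matrix.invOf_eq_nonsing_inv]
  rfl

theorem factor {n N : ℕ} {ρ : ℝ} (P : (Fin n → ℂ) × (Fin n → ℂ) → ℂ)
    (hP : DifferentiableOn ℂ P (ball 0 ρ ×ˢ ball 0 ρ))
    (hmin : ∀ (z w : Fin (N + 1) → (Fin n → ℂ)), (∀ i, z i ∈ ball (0 : Fin n → ℂ) ρ) →
      (∀ j, w j ∈ ball (0 : Fin n → ℂ) ρ) → (Matrix.of fun i j => P (z i, w j)).det = 0) :
    ∃ r ≤ N, ∃ G H : (Fin n → ℂ) → (Fin r → ℂ), DifferentiableOn ℂ G (ball 0 ρ) ∧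
      DifferentiableOn ℂ H (ball 0 ρ) ∧ Indep G (ball 0 ρ) ∧ Indep H (ball 0 ρ) ∧
      ∀ z ∈ ball (0 : Fin n → ℂ) ρ, ∀ w ∈ ball (0 : Fin n → ℂ) ρ,
        P (z, star w) = ∑ i, G z i * star (H w i) := by
  classical
  let Q : ℕ → Prop := fun r => ∃ (x y : Fin r → (Fin n → ℂ)),
    (∀ i, x i ∈ ball (0 : Fin n → ℂ) ρ) ∧ (∀ j, y j ∈ ball (0 : Fin n → ℂ) ρ) ∧
    (Matrix.of fun i j => P (x i, y j)).det ≠ 0
  have hQ0 : Q 0 := ⟨Fin.elim0, Fin.elim0, fun i => i.elim0, fun i => i.elim0, by simp⟩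
  have hQN : ¬ Q (N + 1) := by
    rintro ⟨x, y, hx, hy, h⟩
    exact h (hmin x y hx hy)
  have hex : ∃ m, ¬ Q m := ⟨N + 1, hQN⟩
  have hm := Nat.find_spec hex
  have hm0 : Nat.find hex ≠ 0 := by
    intro h; rw [h] at hm; exact hm hQ0
  obtain ⟨r, hr⟩ := Nat.exists_eq_succ_of_ne_zero hm0
  have hmN : Nat.find hex ≤ N + 1 := Nat.find_min' hex hQN
  have hQr : Q r := by
    by_contra hcon
    have := Nat.find_min' hex hcon
    omega
  rw [hr] at hm
  obtain ⟨x, y, hx, hy, hdet⟩ := hQr
  have hfac : ∀ z ∈ ball (0 : Fin n → ℂ) ρ, ∀ w ∈ ball (0 : Fin n → ℂ) ρ,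
      P (z, w) = ∑ j, P (z, y j) *
        ∑ i, (Matrix.of fun i j => P (x i, y j))⁻¹ j i * P (x i, w) := by
    intro z hz w hw
    refine bordered (fun z w => P (z, w)) x y hdet z w ?_
    by_contra hne
    apply hm
    refine ⟨Fin.snoc x z, Fin.snoc y w, ?_, ?_, hne⟩
    · intro i
      refine Fin.lastCases ?_ (fun i => ?_) i
      · rw [Fin.snoc_last]; exact hz
      · rw [Fin.snoc_castSucc]; exact hx i
    · intro i
      refine Fin.lastCases ?_ (fun i => ?_) i
      · rw [Fin.snoc_last]; exact hw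
      · rw [Fin.snoc_castSucc]; exact hy i
  set M : Matrix (Fin r) (Fin r) ℂ := Matrix.of fun i j => P (x i, y j) with hMdef
  have hMu : IsUnit M.det := isUnit_iff_ne_zero.2 hdet
  let G : (Fin n → ℂ) → (Fin r → ℂ) := fun z j => P (z, y j)
  let Q' : (Fin n → ℂ) → (Fin r → ℂ) := fun w j => ∑ i, M⁻¹ j i * P (x i, w)
  let H : (Fin n → ℂ) → (Fin r → ℂ) := star ∘ Q' ∘ star
  have hQ' : DifferentiableOn ℂ Q' (ball 0 ρ) := by
    rw [differentiableOn_pi]
    intro j
    apply DifferentiableOn.fun_sum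
    intro i _
    apply DifferentiableOn.const_mul
    refine hP.comp (f := fun w : Fin n → ℂ => (x i, w)) ?_ ?_
    · apply Differentiable.differentiableOn
      apply Differentiable.prodMk <;> fun_prop
    · intro w hw
      exact ⟨hx i, hw⟩
  have hsb : ∀ w : Fin n → ℂ, w ∈ ball (0 : Fin n → ℂ) ρ → star w ∈ ball (0 : Fin n → ℂ) ρ := by
    intro w hw
    rw [mem_ball, dist_zero_right] at *
    rwa [norm_star]
  refine ⟨r, by omega, G, H, ?_, ?_, ?_, ?_, ?_⟩
  · rw [differentiableOn_pi]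
    intro j
    refine hP.comp (f := fun z : Fin n → ℂ => (z, y j)) ?_ ?_
    · apply Differentiable.differentiableOn
      apply Differentiable.prodMk <;> fun_prop
    · intro z hz
      exact ⟨hz, hy j⟩
  · intro w hw
    have h1 : DifferentiableAt ℂ Q' (star w) :=
      hQ'.differentiableAt (isOpen_ball.mem_nhds (hsb w hw))
    have h2 := h1.star_star
    rw [star_star] at h2
    exact h2.differentiableWithinAt
  · intro c hc
    have h1 : M.mulVec c = 0 := by
      ext i
      have := hc (x i) (hx i)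
      simp only [Matrix.mulVec, dotProduct, Pi.zero_apply]
      rw [← this]
      apply Finset.sum_congr rfl
      intro j _
      simp only [G, hMdef, Matrix.of_apply]
      ring
    exact Matrix.eq_zero_of_mulVec_eq_zero hMu.ne_zero h1
  · intro c hc
    ext l
    have h1 := hc (star (y l)) (hsb _ (hy l))
    have h2 : ∀ j, H (star (y l)) j = if j = l then 1 else 0 := by
      intro j
      have h3 : (M⁻¹ * M) j l = (1 : Matrix (Fin r) (Fin r) ℂ) j l := by
        rw [Matrix.nonsing_inv_mul _ hMu]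
      rw [Matrix.mul_apply, Matrix.one_apply] at h3
      simp only [H, Function.comp, star_star, Pi.star_apply, Q']
      have h4 : ∑ i, M⁻¹ j i * P (x i, y l) = ∑ i, M⁻¹ j i * M i l := by
        apply Finset.sum_congr rfl
        intro i _
        simp only [hMdef, Matrix.of_apply]
      rw [h4, h3]
      split_ifs <;> simp
    simp only [h2] at h1
    simpa using h1
  · intro z hz w hw
    rw [hfac z hz (star w) (hsb w hw)]
    apply Finset.sum_congr rfl
    intro j _
    simp only [G, H, Q', Function.comp, Pi.star_apply, star_star]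

end TH155.HR
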